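import Pool.Agent.H801.Pt.Split

/-!
# The algorithm: closure of a polynomial-size universe of facts
-/

namespace Pool.Agent.H801.Pt

/-- coded multisets of types -/
abbrev Cx : Type := List ((ℕ × ℕ) × ℕ)

/-- facts: stage, vertex, coded multiset, duration -/
abbrev Fa : Type := (ℕ × ℕ) × (Cx × ℕ)

variable {p : ℕ} {T : Tr}

/-- all types -/
def tys (p : ℕ) : List (ℕ × ℕ) :=
  (List.range p).flatMap fun a => (List.range (p + 1)).map fun b => (a, b)

theorem mem_tys {t : ℕ × ℕ} : t ∈ tys p ↔ t.1 < p ∧ t.2 ≤ p := by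
  unfold tys
  rw [List.mem_flatMap]
  constructor
  · rintro ⟨a, ha, h⟩
    obtain ⟨b, hb, rfl⟩ := List.mem_map.1 h
    rw [List.mem_range] at ha hb
    exact ⟨ha, by simp only; omega⟩
  · rintro ⟨h1, h2⟩
    exact ⟨t.1, List.mem_range.2 h1, List.mem_map.2 ⟨t.2, List.mem_range.2 (by omega), rfl⟩⟩

theorem nodup_tys : (tys p).Nodup := by
  unfold tys
  rw [List.nodup_flatMap]
  refine ⟨fun a _ => List.nodup_range.map fun b b' h => (Prod.ext_iff.1 h).2, ?_⟩
  refine List.nodup_range.imp ?_
  intro a a' hne t h1 h2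
  obtain ⟨b, _, rfl⟩ := List.mem_map.1 h1
  obtain ⟨b', _, h3⟩ := List.mem_map.1 h2
  exact hne (Prod.ext_iff.1 h3).1.symm

/-- the code of a multiset -/
def cnt (p : ℕ) (X : Multiset (ℕ × ℕ)) : Cx := (tys p).map fun t => (t, X.count t)

/-- the code of a singleton -/
def one (p : ℕ) (t : ℕ × ℕ) : Cx := (tys p).map fun s => (s, if s = t then 1 else 0)

/-- adding a type -/
def addT (x : Cx) (t : ℕ × ℕ) : Cx := x.map fun q => (q.1, q.2 + if q.1 = t then 1 else 0)

/-- removing a type -/
def subT (x : Cx) (t : ℕ × ℕ) : Cx := x.map fun q => (q.1, q.2 - if q.1 = t then 1 else 0)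

/-- the multiplicity of a type -/
def atT (x : Cx) (t : ℕ × ℕ) : ℕ := ((x.filter fun q => decide (q.1 = t)).map fun q => q.2).sum

theorem one_eq (t : ℕ × ℕ) : one p t = cnt p {t} := by
  unfold one cnt
  refine List.map_congr_left fun s _ => ?_
  rw [Multiset.count_singleton]

theorem cnt_cons (t : ℕ × ℕ) (X : Multiset (ℕ × ℕ)) : cnt p (t ::ₘ X) = addT (cnt p X) t := by
  unfold addT cnt
  rw [List.map_map]
  refine List.map_congr_left fun s _ => ?_
  simp only [Function.comp]
  rw [Multiset.count_cons]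

theorem cnt_erase (t : ℕ × ℕ) (X : Multiset (ℕ × ℕ)) : cnt p (X.erase t) = subT (cnt p X) t := by
  unfold subT cnt
  rw [List.map_map]
  refine List.map_congr_left fun s _ => ?_
  simp only [Function.comp]
  split_ifs with h
  · rw [h, Multiset.count_erase_self]
  · rw [Multiset.count_erase_of_ne h, Nat.sub_zero]

theorem at_aux (g : ℕ × ℕ → ℕ) (t : ℕ × ℕ) : ∀ L : List (ℕ × ℕ), L.Nodup →
    atT (L.map fun s => (s, g s)) t = if t ∈ L then g t else 0
  | [], _ => by simp [atT]
  | s :: L, h => by
    have h1 := at_aux g t L (List.nodup_cons.1 h).2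
    unfold atT at *
    rw [List.map_cons, List.filter_cons]
    by_cases hs : s = t
    · subst hs
      have h2 : s ∉ L := (List.nodup_cons.1 h).1
      simp only [decide_true, if_true, List.map_cons, List.sum_cons, h1, if_neg h2, add_zero,
        List.mem_cons, true_or]
    · have h3 : ¬ t = s := fun h => hs h.symm
      simp only [hs, decide_false, Bool.false_eq_true, if_false, h1, List.mem_cons, h3, false_or]

theorem atT_cnt {t : ℕ × ℕ} (ht : t ∈ tys p) (X : Multiset (ℕ × ℕ)) :
    atT (cnt p X) t = X.count t := by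
  unfold cnt
  rw [at_aux (fun t => X.count t) t _ nodup_tys, if_pos ht]

/-- the inverse of lifting -/
def unl (p : ℕ) (t : ℕ × ℕ) : ℕ × ℕ :=
  ((t.1 + 1) % p, if t.2 = p then p else (t.2 + (p - 1)) % p)

theorem unl_mem (hp : 0 < p) (t : ℕ × ℕ) : unl p t ∈ tys p := by
  rw [mem_tys]
  refine ⟨Nat.mod_lt _ hp, ?_⟩
  unfold unl
  simp only
  split_ifs
  · exact le_rfl
  · exact (Nat.mod_lt _ hp).le

theorem unl_lift (hp : 0 < p) {t : ℕ × ℕ} (ht : t ∈ tys p) : unl p (lift p t) = t := by
  obtain ⟨a, b⟩ := t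
  rw [mem_tys] at ht
  obtain ⟨h1, h2⟩ := ht
  simp only at h1 h2
  unfold unl lift
  simp only
  rw [mod1 hp, Nat.mod_eq_of_lt h1]
  by_cases hb : b = p
  · simp [hb]
  · rw [if_neg hb, if_neg (ne_of_lt (Nat.mod_lt _ hp)), mod2 hp (by omega)]

theorem lift_unl (hp : 0 < p) {t : ℕ × ℕ} (ht : t ∈ tys p) : lift p (unl p t) = t := by
  obtain ⟨a, b⟩ := t
  rw [mem_tys] at ht
  obtain ⟨h1, h2⟩ := ht
  simp only at h1 h2
  unfold unl lift
  simp only
  rw [mod2 hp h1]
  by_cases hb : b = p
  · simp [hb]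
  · rw [if_neg hb, if_neg (ne_of_lt (Nat.mod_lt _ hp)), mod1 hp, Nat.mod_eq_of_lt (by omega)]

theorem count_lift (hp : 0 < p) {t : ℕ × ℕ} (ht : t ∈ tys p) (X : Multiset (ℕ × ℕ))
    (hX : ∀ s ∈ X, s ∈ tys p) : (X.map (lift p)).count t = X.count (unl p t) := by
  induction X using Multiset.induction_on with
  | empty => simp
  | cons s X ih =>
    rw [Multiset.map_cons, Multiset.count_cons, Multiset.count_cons,
      ih fun u hu => hX u (Multiset.mem_cons_of_mem hu)]
    have hs := hX s (Multiset.mem_cons_self s X)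
    have : (t = lift p s) ↔ (unl p t = s) := by
      constructor
      · rintro rfl; exact unl_lift hp hs
      · rintro rfl; exact (lift_unl hp ht).symm
    simp only [this]

/-- combination of the codes of two families -/
def comb (p : ℕ) (x x' : Cx) : Cx := x.map fun q => (q.1, q.2 + atT x' (unl p q.1))

theorem comb_cnt (hp : 0 < p) (X X' : Multiset (ℕ × ℕ)) (hX : ∀ s ∈ X', s ∈ tys p) :
    comb p (cnt p X) (cnt p X') = cnt p (X + X'.map (lift p)) := by
  unfold comb
  rw [show cnt p (X + X'.map (lift p)) = (tys p).map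
    (fun t => (t, (X + X'.map (lift p)).count t)) from rfl,
    show cnt p X = (tys p).map (fun t => (t, X.count t)) from rfl, List.map_map]
  refine List.map_congr_left fun s hs => ?_
  simp only [Function.comp]
  rw [Multiset.count_add, atT_cnt (unl_mem hp s), count_lift hp hs X' hX]

/-- can all fragments be lifted? -/
def okX (p : ℕ) (T : Tr) (c : ℕ) (x : Cx) : Bool :=
  x.all fun q => decide (q.2 = 0) || okT p T c q.1

theorem okX_cnt {c : ℕ} {X : Multiset (ℕ × ℕ)} (hX : ∀ s ∈ X, s ∈ tys p) :
    okX p T c (cnt p X) = true ↔ ∀ t ∈ X, okT p T c t = true := by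
  unfold okX cnt
  rw [List.all_map, List.all_eq_true]
  constructor
  · intro h t ht
    have h1 := h t (hX t ht)
    simp only [Function.comp, Bool.or_eq_true, decide_eq_true_eq] at h1
    rcases h1 with h1 | h1
    · exact absurd (Multiset.count_eq_zero.1 h1) (by simpa using ht)
    · exact h1
  · intro h t _
    simp only [Function.comp, Bool.or_eq_true, decide_eq_true_eq]
    by_cases ht : t ∈ X
    · exact Or.inr (h t ht)
    · exact Or.inl (Multiset.count_eq_zero.2 ht)

/-- the cost of lifting all fragments -/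
def costX (p : ℕ) (x : Cx) : ℕ := (x.map fun q => q.2 * costT p q.1).sum

theorem cost_aux (g : ℕ × ℕ → ℕ) (w : ℕ × ℕ → ℕ) (t : ℕ × ℕ) : ∀ L : List (ℕ × ℕ), L.Nodup →
    (L.map fun s => (g s + if s = t then 1 else 0) * w s).sum =
      (L.map fun s => g s * w s).sum + if t ∈ L then w t else 0
  | [], _ => by simp
  | s :: L, h => by
    have h1 := cost_aux g w t L (List.nodup_cons.1 h).2
    rw [List.map_cons, List.sum_cons, List.map_cons, List.sum_cons, h1]
    by_cases hs : s = t
    · subst hs
      have h2 : s ∉ L := (List.nodup_cons.1 h).1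
      simp only [if_true, if_neg h2, List.mem_cons, true_or]
      ring
    · have h3 : ¬ t = s := fun h => hs h.symm
      simp only [if_neg hs, List.mem_cons, h3, false_or]
      ring

theorem costX_cnt {X : Multiset (ℕ × ℕ)} (hX : ∀ s ∈ X, s ∈ tys p) :
    costX p (cnt p X) = (X.map (costT p)).sum := by
  induction X using Multiset.induction_on with
  | empty =>
    unfold costX cnt
    rw [List.map_map]
    simp [Function.comp_def]
  | cons s X ih =>
    have h1 := ih fun u hu => hX u (Multiset.mem_cons_of_mem hu)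
    rw [Multiset.map_cons, Multiset.sum_cons, ← h1]
    unfold costX cnt
    rw [List.map_map, List.map_map]
    have h2 := cost_aux (fun t => X.count t) (costT p) s (tys p) nodup_tys
    rw [if_pos (hX s (Multiset.mem_cons_self s X))] at h2
    rw [add_comm (costT p s)]
    refine Eq.trans ?_ h2
    congr 1
    refine List.map_congr_left fun t _ => ?_
    simp only [Function.comp]
    rw [Multiset.count_cons]

/-! ### The rules -/

/-- the fragments without movement -/
def atoms (p : ℕ) : List ((ℕ × ℕ) × ℕ) :=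
  (List.range p).flatMap fun a => [((a, a), 0), ((a, (a + 1) % p), 1), ((a, p), 0)]

/-- the possible merges -/
def trip (p : ℕ) : List (ℕ × ℕ × ℕ) :=
  (List.range p).flatMap fun a => (List.range p).flatMap fun b =>
    (List.range (p + 1)).map fun c => (a, b, c)

theorem mem_trip {a b c : ℕ} : (a, b, c) ∈ trip p ↔ a < p ∧ b < p ∧ c ≤ p := by
  unfold trip
  simp only [List.mem_flatMap, List.mem_range, List.mem_map, Prod.mk.injEq]
  constructor
  · rintro ⟨a', h1, b', h2, c', h3, rfl, rfl, rfl⟩
    exact ⟨h1, h2, by omega⟩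
  · rintro ⟨h1, h2, h3⟩
    exact ⟨a, h1, b, h2, c, by omega, rfl, rfl, rfl⟩

/-- the initial facts -/
def base (p m : ℕ) : List Fa :=
  (List.range (m + 1)).flatMap fun v => (List.range p).map fun a => ((0, v), (one p (a, a), 0))

/-- is the merge possible? -/
def canM (x : Cx) (q : ℕ × ℕ × ℕ) : Bool :=
  decide (1 ≤ atT x (q.1, q.2.1)) && decide (1 ≤ atT (subT x (q.1, q.2.1)) (q.2.1, q.2.2))

/-- the result of a merge -/
def doM (x : Cx) (q : ℕ × ℕ × ℕ) : Cx :=
  addT (subT (subT x (q.1, q.2.1)) (q.2.1, q.2.2)) (q.1, q.2.2)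

/-- the consequences of one fact -/
def un (p : ℕ) (T : Tr) (f : Fa) : List Fa :=
  ((atoms p).map fun q => (f.1, (addT f.2.1 q.1, f.2.2 + q.2))) ++
    (((trip p).filter fun q => canM f.2.1 q).map fun q => (f.1, (doM f.2.1 q, f.2.2))) ++
    (if f.1.1 < T.length ∧ f.1.2 < T.length - f.1.1 ∧ ¬ f.1.2 = par T (T.length - f.1.1)
      then [((f.1.1 + 1, f.1.2), f.2)] else [])

/-- the consequences of two facts -/
def bi (p : ℕ) (T : Tr) (f g : Fa) : List Fa :=
  if f.1.1 < T.length ∧ g.1.1 = f.1.1 ∧ f.1.2 = par T (T.length - f.1.1) ∧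
      g.1.2 = T.length - f.1.1 ∧ okX p T (T.length - f.1.1) g.2.1 = true
  then [((f.1.1 + 1, f.1.2), (comb p f.2.1 g.2.1, f.2.2 + g.2.2 + costX p g.2.1))] else []

/-- association lists with bounded values -/
def uni : List (ℕ × ℕ) → ℕ → List Cx
  | [], _ => [[]]
  | t :: L, B => (uni L B).flatMap fun r => (List.range (B + 2)).map fun c => (t, c) :: r

theorem mem_uni (g : ℕ × ℕ → ℕ) (B : ℕ) : ∀ L : List (ℕ × ℕ), (∀ t ∈ L, g t ≤ B + 1) →
    L.map (fun t => (t, g t)) ∈ uni L B
  | [], _ => by simp [uni]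
  | t :: L, h => by
    unfold uni
    rw [List.mem_flatMap]
    refine ⟨_, mem_uni g B L fun s hs => h s (List.mem_cons_of_mem _ hs), ?_⟩
    rw [List.mem_map]
    exact ⟨g t, List.mem_range.2 (by have := h t List.mem_cons_self; omega), rfl⟩

/-- the bound for the durations and multiplicities -/
def bnd (p : ℕ) (T : Tr) : ℕ := 2 * p * (T.length * T.length) + 1

/-- the universe -/
def Un (p : ℕ) (T : Tr) : List Fa :=
  (List.range (T.length + 1)).flatMap fun k => (List.range (T.length + 1)).flatMap fun v =>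
    (uni (tys p) (bnd p T)).flatMap fun x => (List.range (bnd p T + 1)).map fun d =>
      ((k, v), (x, d))

theorem mem_Un {k v d : ℕ} {X : Multiset (ℕ × ℕ)} (hk : k ≤ T.length) (hv : v ≤ T.length)
    (hd : d ≤ bnd p T) (hX : Multiset.card X ≤ bnd p T + 1) :
    (((k, v), (cnt p X, d)) : Fa) ∈ Un p T := by
  unfold Un
  simp only [List.mem_flatMap, List.mem_map, List.mem_range]
  refine ⟨k, by omega, v, by omega, cnt p X, ?_, d, by omega, rfl⟩
  exact mem_uni (fun t => X.count t) _ _ fun t _ => (Multiset.count_le_card t X).trans hX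

/-- the facts in `S` and their consequences -/
def cand (p : ℕ) (T : Tr) (S : List Fa) : List Fa :=
  S ++ (base p T.length ++ (S.flatMap (fun g => un p T g) ++
    S.flatMap fun g => S.flatMap fun h => bi p T g h))

/-- one round of the closure -/
def rnd (p : ℕ) (T : Tr) (S : List Fa) : List Fa :=
  (Un p T).filter fun f => decide (f ∈ cand p T S)

/-- all derivable facts -/
def clo (p : ℕ) (T : Tr) : List Fa := (Un p T).foldl (fun S _ => rnd p T S) []

/-- the output: the least duration of a covering walk -/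
def out (p : ℕ) (T : Tr) : ℕ :=
  match ((List.range (bnd p T + 1)).filter fun d =>
    decide ((((T.length, 0), (one p (0, p), d)) : Fa) ∈ clo p T)).head? with
  | none => 0
  | some d => d

/-! ### The closure is closed -/

theorem mem_rnd {S : List Fa} {f : Fa} : f ∈ rnd p T S ↔ f ∈ Un p T ∧ (f ∈ S ∨
    f ∈ base p T.length ∨ (∃ g ∈ S, f ∈ un p T g) ∨ ∃ g ∈ S, ∃ h ∈ S, f ∈ bi p T g h) := by
  unfold rnd cand
  simp only [List.mem_filter, decide_eq_true_eq, List.mem_append, List.mem_flatMap]

/-- the rounds -/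
def Rd (p : ℕ) (T : Tr) (n : ℕ) : List Fa := (rnd p T)^[n] []

theorem Rd_succ (n : ℕ) : Rd p T (n + 1) = rnd p T (Rd p T n) := by
  unfold Rd
  rw [Function.iterate_succ_apply']

theorem clo_eq : clo p T = Rd p T (Un p T).length := by
  unfold clo Rd
  rw [List.foldl_const]

theorem Rd_sub (n : ℕ) : Rd p T n ⊆ Rd p T (n + 1) := by
  induction n with
  | zero => intro f hf; exact absurd hf (by simp [Rd])
  | succ n ih =>
    intro f hf
    rw [Rd_succ] at hf
    rw [Rd_succ, mem_rnd]
    obtain ⟨h1, h2⟩ := mem_rnd.1 hf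
    refine ⟨h1, ?_⟩
    rcases h2 with h2 | h2 | ⟨g, hg, h2⟩ | ⟨g, hg, h, hh, h2⟩
    · exact Or.inl (ih h2)
    · exact Or.inr (Or.inl h2)
    · exact Or.inr (Or.inr (Or.inl ⟨g, ih hg, h2⟩))
    · exact Or.inr (Or.inr (Or.inr ⟨g, ih hg, h, ih hh, h2⟩))

theorem rnd_sublist {S S' : List Fa} (h : rnd p T S ⊆ rnd p T S') :
    List.Sublist (rnd p T S) (rnd p T S') := by
  unfold rnd
  rw [show (Un p T).filter (fun f => decide (f ∈ cand p T S)) = (Un p T).filter (fun f => decide
      (f ∈ rnd p T S)) from ?_, show (Un p T).filter (fun f => decide (f ∈ cand p T S')) =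
      (Un p T).filter (fun f => decide (f ∈ rnd p T S')) from ?_]
  · refine List.monotone_filter_right _ ?_
    intro f hf
    rw [decide_eq_true_eq] at *
    exact h hf
  · refine List.filter_congr fun f hf => ?_
    unfold rnd
    simp only [List.mem_filter, hf, true_and, decide_eq_true_eq]
  · refine List.filter_congr fun f hf => ?_
    unfold rnd
    simp only [List.mem_filter, hf, true_and, decide_eq_true_eq]

theorem Rd_sublist (n : ℕ) : List.Sublist (Rd p T n) (Rd p T (n + 1)) := by
  cases n with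
  | zero => simp [Rd]
  | succ n =>
    have h := Rd_sub (p := p) (T := T) (n + 1)
    rw [Rd_succ n, Rd_succ (n + 1)] at *
    exact rnd_sublist h

theorem clo_closed : rnd p T (clo p T) = clo p T := by
  rw [clo_eq, ← Rd_succ]
  by_contra hne
  have h1 : ∀ j ≤ (Un p T).length, Rd p T (j + 1) ≠ Rd p T j := by
    intro j hj h
    apply hne
    have h2 : ∀ i, Rd p T (j + i) = Rd p T j := by
      intro i
      induction i with
      | zero => rfl
      | succ i ih => rw [← add_assoc, Rd_succ, ih, ← Rd_succ, h]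
    have h3 := h2 ((Un p T).length - j)
    have h4 := h2 ((Un p T).length + 1 - j)
    rw [show j + ((Un p T).length - j) = (Un p T).length from by omega] at h3
    rw [show j + ((Un p T).length + 1 - j) = (Un p T).length + 1 from by omega] at h4
    rw [h3, h4]
  have h2 : ∀ j ≤ (Un p T).length + 1, j ≤ (Rd p T j).length := by
    intro j
    induction j with
    | zero => intro _; exact Nat.zero_le _
    | succ j ih =>
      intro hj
      have h3 := ih (by omega)
      have h4 := Rd_sublist (p := p) (T := T) j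
      have h5 := h4.length_le
      by_contra h6
      exact h1 j (by omega) (h4.eq_of_length (by omega)).symm
  have h3 := h2 _ le_rfl
  rw [Rd_succ] at h3
  have h4 : (rnd p T (Rd p T (Un p T).length)).length ≤ (Un p T).length := by
    unfold rnd
    exact List.length_filter_le _ _
  omega

theorem clo_base {f : Fa} (hf : f ∈ Un p T) (h : f ∈ base p T.length) : f ∈ clo p T := by
  rw [← clo_closed, mem_rnd]
  exact ⟨hf, Or.inr (Or.inl h)⟩

theorem clo_un {f g : Fa} (hf : f ∈ Un p T) (hg : g ∈ clo p T) (h : f ∈ un p T g) :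
    f ∈ clo p T := by
  rw [← clo_closed, mem_rnd]
  exact ⟨hf, Or.inr (Or.inr (Or.inl ⟨g, hg, h⟩))⟩

theorem clo_bi {f g g' : Fa} (hf : f ∈ Un p T) (hg : g ∈ clo p T) (hg' : g' ∈ clo p T)
    (h : f ∈ bi p T g g') : f ∈ clo p T := by
  rw [← clo_closed, mem_rnd]
  exact ⟨hf, Or.inr (Or.inr (Or.inr ⟨g, hg, g', hg', h⟩))⟩

end Pool.Agent.H801.Pt
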