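import Pool.Agent.H801.Pt.Alg

/-!
# Correctness of the algorithm
-/

namespace Pool.Agent.H801.Pt

variable {p : ℕ} {T : Tr}

/-! ### Soundness -/

/-- the meaning of a fact -/
def Sem (p : ℕ) (T : Tr) (f : Fa) : Prop :=
  f.1.1 ≤ T.length ∧ f.1.2 ≤ T.length - f.1.1 ∧ ∃ (X : Multiset (ℕ × ℕ)) (C : Finset ℕ),
    f.2.1 = cnt p X ∧ Fam p T (Reg T f.1.1 f.1.2) f.1.2 X f.2.2 C ∧
      ∀ y, Reg T f.1.1 f.1.2 y → y ∈ C

theorem sem_base {f : Fa} (h : f ∈ base p T.length) : Sem p T f := by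
  unfold base at h
  simp only [List.mem_flatMap, List.mem_range, List.mem_map] at h
  obtain ⟨v, hv, a, ha, rfl⟩ := h
  refine ⟨Nat.zero_le _, (by change v ≤ T.length - 0; omega), {(a, a)}, {v}, one_eq _, ?_, ?_⟩
  · refine Fam.single ⟨ha, v, {v}, subset_refl _, Wk.nil ⟨(show v ≤ T.length by omega), rfl⟩,
      Or.inr ⟨rfl, ?_⟩⟩
    simp only
    rw [add_zero, Nat.mod_eq_of_lt ha]
  · rintro y ⟨_, hy⟩
    exact Finset.mem_singleton.2 hy

theorem reg_self {k v : ℕ} (hk : k ≤ T.length) (hv : v ≤ T.length - k) : Reg T k v v :=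
  ⟨by omega, rep_of_le hk hv⟩

theorem frag_atom {A : ℕ → Prop} {v : ℕ} (hA : A v) {q : (ℕ × ℕ) × ℕ}
    (hq : q ∈ atoms p) : Frag p T A v q.1 q.2 ∅ := by
  unfold atoms at hq
  simp only [List.mem_flatMap, List.mem_range, List.mem_cons, List.not_mem_nil, or_false] at hq
  obtain ⟨a, ha, rfl | rfl | rfl⟩ := hq
  · refine ⟨ha, v, {v}, by simp, Wk.nil hA, Or.inr ⟨rfl, ?_⟩⟩
    simp only
    rw [add_zero, Nat.mod_eq_of_lt ha]
  · exact ⟨ha, v, {v}, by simp, Wk.wait hA _ 1, Or.inr ⟨rfl, rfl⟩⟩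
  · exact ⟨ha, v, {v}, by simp, Wk.nil hA, Or.inl rfl⟩

theorem sem_un {f g : Fa} (hg : Sem p T g) (h : f ∈ un p T g) : Sem p T f := by
  obtain ⟨⟨k, v⟩, x, d⟩ := g
  obtain ⟨hk, hv, X, C, hx, hF, hC⟩ := hg
  simp only at hk hv hx hF hC
  subst hx
  unfold un at h
  simp only [List.mem_append, List.mem_map, List.mem_filter] at h
  rcases h with (⟨q, hq, rfl⟩ | ⟨⟨a, b, c⟩, ⟨hq, hc⟩, rfl⟩) | h
  · refine ⟨hk, hv, q.1 ::ₘ X, ∅ ∪ C, (cnt_cons _ _).symm, ?_, ?_⟩
    · have := Fam.cons (frag_atom (reg_self hk hv) hq) hF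
      simp only
      rw [add_comm d]
      exact this
    · intro y hy
      rw [Finset.empty_union]
      exact hC y hy
  · rw [mem_trip] at hq
    obtain ⟨ha, hb, hc'⟩ := hq
    unfold canM at hc
    simp only [Bool.and_eq_true, decide_eq_true_eq] at hc
    obtain ⟨h1, h2⟩ := hc
    rw [← cnt_erase, atT_cnt (mem_tys.2 ⟨hb, hc'⟩)] at h2
    rw [atT_cnt (mem_tys.2 ⟨ha, hb.le⟩)] at h1
    have h3 : (a, b) ∈ X := Multiset.count_pos.1 h1
    have h4 : (b, c) ∈ X.erase (a, b) := Multiset.count_pos.1 h2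
    have h5 := (Multiset.cons_erase h3).symm
    obtain ⟨e, C₁, d', C₂, g1, g2, rfl, rfl⟩ := hF.inv _ h5
    have h6 := (Multiset.cons_erase h4).symm
    obtain ⟨e', C₁', d'', C₂', g1', g2', rfl, rfl⟩ := g2.inv _ h6
    refine ⟨hk, hv, (a, c) ::ₘ (X.erase (a, b)).erase (b, c), (C₁ ∪ C₁') ∪ C₂', ?_, ?_, ?_⟩
    · change addT (subT (subT (cnt p X) (a, b)) (b, c)) (a, c) = _
      rw [← cnt_erase, ← cnt_erase, ← cnt_cons]
    · rw [← add_assoc]
      exact Fam.cons (g1.merge g1') g2'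
    · intro y hy
      have := hC y hy
      simp only [Finset.mem_union] at this ⊢
      tauto
  · split_ifs at h with hc
    · rw [List.mem_singleton] at h
      subst h
      obtain ⟨h1, h2, h3⟩ := hc
      have hreg := reg_succ_of_ne (T := T) (k := k) h3 (by omega)
      refine ⟨by simp only; omega, by simp only; omega, X, C, rfl, ?_, ?_⟩
      · exact hF.mono fun u hu => (hreg u).2 hu
      · intro y hy
        exact hC y ((hreg y).1 hy)
    · exact absurd h (by simp)

theorem sem_bi (hp : 0 < p) (hT : Legal p T) {f g g' : Fa} (hg : Sem p T g) (hg' : Sem p T g')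
    (h : f ∈ bi p T g g') : Sem p T f := by
  obtain ⟨⟨k, v⟩, x, d⟩ := g
  obtain ⟨⟨k', w⟩, x', d'⟩ := g'
  obtain ⟨hk, hv, X, C, hx, hF, hC⟩ := hg
  obtain ⟨hk', hv', X', C', hx', hF', hC'⟩ := hg'
  simp only at hk hv hx hF hC hk' hv' hx' hF' hC'
  subst hx hx'
  unfold bi at h
  simp only at h
  split_ifs at h with hc
  · rw [List.mem_singleton] at h
    subst h
    obtain ⟨h1, rfl, h3, rfl, h5⟩ := hc
    have hpar := (hT (T.length - k') (by omega) (by omega)).1
    have hreg : ∀ y, Reg T (k' + 1) v y ↔ Reg T k' v y ∨ Reg T k' (T.length - k') y := by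
      intro y
      rw [h3]
      exact reg_succ_par (by omega) y
    have htys : ∀ s ∈ X', s ∈ tys p := fun s hs => mem_tys.2 (hF'.types hp s hs)
    refine ⟨by simp only; omega, by simp only; omega, X + X'.map (lift p), C ∪ C',
      comb_cnt hp _ _ htys, ?_, ?_⟩
    · simp only
      rw [costX_cnt htys, add_assoc]
      refine (hF.mono fun u hu => (hreg u).2 (Or.inl hu)).add ?_
      exact hF'.lift' hp (by omega) (by omega) h3 (fun u hu => (hreg u).2 (Or.inr hu))
        ((hreg v).2 (Or.inl (reg_self hk hv))) ((okX_cnt htys).1 h5)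
    · intro y hy
      rcases (hreg y).1 hy with hy | hy
      · exact Finset.mem_union_left _ (hC y hy)
      · exact Finset.mem_union_right _ (hC' y hy)
  · exact absurd h (by simp)

theorem sem_Rd (hp : 0 < p) (hT : Legal p T) (n : ℕ) : ∀ f ∈ Rd p T n, Sem p T f := by
  induction n with
  | zero => intro f hf; exact absurd hf (by simp [Rd])
  | succ n ih =>
    intro f hf
    rw [Rd_succ, mem_rnd] at hf
    rcases hf.2 with h | h | ⟨g, hg, h⟩ | ⟨g, hg, g', hg', h⟩
    · exact ih f h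
    · exact sem_base h
    · exact sem_un (ih g hg) h
    · exact sem_bi hp hT (ih g hg) (ih g' hg') h

theorem sem_clo (hp : 0 < p) (hT : Legal p T) {f : Fa} (hf : f ∈ clo p T) : Sem p T f := by
  rw [clo_eq] at hf
  exact sem_Rd hp hT _ f hf

/-! ### Completeness -/

/-- the fact is derivable -/
def InC (p : ℕ) (T : Tr) (k v : ℕ) (X : Multiset (ℕ × ℕ)) (d : ℕ) : Prop :=
  (((k, v), (cnt p X, d)) : Fa) ∈ clo p T

theorem InC.atom {k v : ℕ} {X : Multiset (ℕ × ℕ)} {d : ℕ} (h : InC p T k v X d)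
    (hk : k ≤ T.length) (hv : v ≤ T.length) {t : ℕ × ℕ} {c : ℕ} (ht : (t, c) ∈ atoms p)
    (hX : Multiset.card X ≤ bnd p T) (hd : d + c ≤ bnd p T) : InC p T k v (t ::ₘ X) (d + c) := by
  refine clo_un (mem_Un hk hv hd (by rw [Multiset.card_cons]; omega)) h ?_
  unfold un
  simp only [List.mem_append, List.mem_map]
  refine Or.inl (Or.inl ⟨(t, c), ht, ?_⟩)
  simp only
  rw [cnt_cons]

theorem InC.merge {k v : ℕ} {Z : Multiset (ℕ × ℕ)} {d a b c : ℕ}
    (h : InC p T k v ((a, b) ::ₘ (b, c) ::ₘ Z) d)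
    (hk : k ≤ T.length) (hv : v ≤ T.length) (ha : a < p) (hb : b < p) (hc : c ≤ p)
    (hX : Multiset.card Z ≤ bnd p T) (hd : d ≤ bnd p T) : InC p T k v ((a, c) ::ₘ Z) d := by
  refine clo_un (mem_Un hk hv hd (by rw [Multiset.card_cons]; omega)) h ?_
  unfold un
  simp only [List.mem_append, List.mem_map, List.mem_filter]
  refine Or.inl (Or.inr ⟨(a, b, c), ⟨mem_trip.2 ⟨ha, hb, hc⟩, ?_⟩, ?_⟩)
  · unfold canM
    simp only [Bool.and_eq_true, decide_eq_true_eq]
    rw [← cnt_erase, Multiset.erase_cons_head, atT_cnt (t := (b, c)) (mem_tys.2 ⟨hb, hc⟩),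
      atT_cnt (t := (a, b)) (mem_tys.2 ⟨ha, hb.le⟩), Multiset.count_cons_self,
      Multiset.count_cons_self]
    omega
  · unfold doM
    simp only
    rw [← cnt_erase, Multiset.erase_cons_head, ← cnt_erase, Multiset.erase_cons_head, cnt_cons]

theorem InC.mg {k v : ℕ} {X Y : Multiset (ℕ × ℕ)} {d : ℕ} (hk : k ≤ T.length) (hv : v ≤ T.length)
    (hd : d ≤ bnd p T) (h : Mg p Y X) : Multiset.card Y ≤ bnd p T + 1 → InC p T k v Y d →
    InC p T k v X d := by
  induction h with
  | refl => intro _ h; exact h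
  | step ha hb hc _ ih =>
    intro hY h
    rw [Multiset.card_cons, Multiset.card_cons] at hY
    exact ih (by rw [Multiset.card_cons]; omega) (h.merge hk hv ha hb hc (by omega) hd)

theorem atom_refl {a : ℕ} (ha : a < p) : ((a, a), 0) ∈ atoms p := by
  unfold atoms
  exact List.mem_flatMap.2 ⟨a, List.mem_range.2 ha, by simp⟩

theorem atom_wait {a : ℕ} (ha : a < p) : ((a, (a + 1) % p), 1) ∈ atoms p := by
  unfold atoms
  exact List.mem_flatMap.2 ⟨a, List.mem_range.2 ha, by simp⟩

theorem atom_term {a : ℕ} (ha : a < p) : ((a, p), 0) ∈ atoms p := by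
  unfold atoms
  exact List.mem_flatMap.2 ⟨a, List.mem_range.2 ha, by simp⟩

theorem InC.grow (hp : 0 < p) {k v : ℕ} {Y : Multiset (ℕ × ℕ)} {d a b : ℕ}
    (h : InC p T k v ((a, b) ::ₘ Y) d) (hk : k ≤ T.length) (hv : v ≤ T.length) (ha : a < p)
    (hb : b < p) (hY : Multiset.card Y + 1 ≤ bnd p T) :
    ∀ e, d + e ≤ bnd p T → InC p T k v ((a, (b + e) % p) ::ₘ Y) (d + e)
  | 0, _ => by
    rw [add_zero, Nat.mod_eq_of_lt hb, add_zero]
    exact h
  | e + 1, he => by
    have h1 := InC.grow hp h hk hv ha hb hY e (by omega)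
    have hlt : (b + e) % p < p := Nat.mod_lt _ hp
    have h2 := h1.atom hk hv (atom_wait hlt) (by rw [Multiset.card_cons]; omega) (by omega)
    rw [Nat.mod_add_mod, Multiset.cons_swap] at h2
    have h3 := h2.merge hk hv ha hlt (Nat.mod_lt _ hp).le (by omega) (by omega)
    exact h3

theorem complete_base (hp : 0 < p) {v : ℕ} (hv : v ≤ T.length) {X : Multiset (ℕ × ℕ)} {d : ℕ}
    {C : Finset ℕ} (h : Fam p T (Reg T 0 v) v X d C) : X ≠ 0 → Multiset.card X + d ≤ bnd p T →
    InC p T 0 v X d := by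
  induction h with
  | nil => intro h; exact absurd rfl h
  | @cons t e C X d C' h1 h2 ih =>
    intro _ hb
    rw [Multiset.card_cons] at hb
    obtain ⟨ha, y, C₀, _, _, h5⟩ := h1
    obtain ⟨a, b⟩ := t
    simp only at ha h5
    have h6 : InC p T 0 v ((a, a) ::ₘ X) d := by
      by_cases hX : X = 0
      · obtain ⟨rfl, _⟩ := h2.zero hX
        subst hX
        refine clo_base (mem_Un (Nat.zero_le _) hv (Nat.zero_le _) (by simp)) ?_
        unfold base
        simp only [List.mem_flatMap, List.mem_range, List.mem_map]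
        exact ⟨v, by omega, a, ha, by rw [one_eq]; rfl⟩
      · exact (ih hX (by omega)).atom (Nat.zero_le _) hv (atom_refl ha) (by omega) (by omega)
    have h7 := h6.grow hp (Nat.zero_le _) hv ha ha (by omega) e (by omega)
    rw [add_comm e d]
    rcases h5 with rfl | ⟨_, rfl⟩
    · have hlt : (a + e) % b < b := Nat.mod_lt _ hp
      have h8 := h7.atom (Nat.zero_le _) hv (atom_term hlt) (by rw [Multiset.card_cons]; omega)
        (by omega)
      rw [add_zero, Multiset.cons_swap] at h8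
      exact h8.merge (Nat.zero_le _) hv ha hlt le_rfl (by omega) (by omega)
    · exact h7

theorem complete (hp : 0 < p) (hT : Legal p T) (k : ℕ) : k ≤ T.length → ∀ (v : ℕ),
    v ≤ T.length - k → ∀ (X : Multiset (ℕ × ℕ)) (d : ℕ) (C : Finset ℕ),
    Fam p T (Reg T k v) v X d C → (∀ y, Reg T k v y → y ∈ C) → Multiset.card X + d ≤ bnd p T →
    InC p T k v X d := by
  induction k with
  | zero =>
    intro _ v hv X d C hF hC hb
    refine complete_base hp hv hF ?_ hb
    intro hX
    have h1 := (hF.zero hX).2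
    have h2 := hC v (reg_self (Nat.zero_le _) hv)
    rw [h1] at h2
    exact absurd h2 (by simp)
  | succ k ih =>
    intro hk v hv X d C hF hC hb
    have hpar := (hT (T.length - k) (by omega) (by omega)).1
    by_cases hv' : v = par T (T.length - k)
    · have hreg : ∀ y, Reg T (k + 1) v y ↔ Reg T k v y ∨ Reg T k (T.length - k) y := by
        intro y
        rw [hv']
        exact reg_succ_par (by omega) y
      obtain ⟨P, Q, dP, dQ, CP, CQ, g1, g2, g3, g4, g5, g6, g7⟩ := split_fam hp hT (by omega) hv' hF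
      have hP : InC p T k v P dP := by
        refine ih (by omega) v (by omega) P dP CP g1 ?_ (by omega)
        intro y hy
        rcases Finset.mem_union.1 (g5 (hC y ((hreg y).2 (Or.inl hy)))) with h | h
        · exact h
        · have h1 := g2.inside y h
          have h2 := hy.2.symm.trans h1.2
          omega
      have hQ : InC p T k (T.length - k) Q dQ := by
        refine ih (by omega) _ le_rfl Q dQ CQ g2 ?_ (by omega)
        intro y hy
        rcases Finset.mem_union.1 (g5 (hC y ((hreg y).2 (Or.inr hy)))) with h | h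
        · have h1 := g1.inside y h
          have h2 := hy.2.symm.trans h1.2
          omega
        · exact h
      have htys : ∀ s ∈ Q, s ∈ tys p := fun s hs => mem_tys.2 (g2.types hp s hs)
      have hcard : Multiset.card (P + Q.map (lift p)) ≤ bnd p T + 1 := by
        rw [Multiset.card_add, Multiset.card_map]; omega
      refine InC.mg hk (by omega) (by omega) g6 hcard ?_
      refine clo_bi (mem_Un hk (by omega) (by omega) hcard) hP hQ ?_
      unfold bi
      rw [if_pos ⟨(show k < T.length by omega), rfl, hv', rfl, (okX_cnt htys).2 g3⟩,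
        List.mem_singleton]
      simp only
      rw [comb_cnt hp _ _ htys, costX_cnt htys, g4]
    · have hreg := reg_succ_of_ne (T := T) (k := k) hv' (by omega)
      have h1 := ih (by omega) v (by omega) X d C (hF.mono fun u hu => (hreg u).1 hu)
        (fun y hy => hC y ((hreg y).2 hy)) hb
      refine clo_un (mem_Un hk (by omega) (by omega) (by omega)) h1 ?_
      unfold un
      simp only [List.mem_append]
      right
      rw [if_pos ⟨(show k < T.length by omega), (show v < T.length - k by omega), hv'⟩]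
      exact List.mem_singleton.2 rfl

/-! ### Covering walks -/

theorem reg_all (hT : Legal p T) {y : ℕ} : Reg T T.length 0 y ↔ y ≤ T.length := by
  constructor
  · exact fun h => h.1
  · intro h
    refine ⟨h, ?_⟩
    have := rep_le hT le_rfl h
    omega

theorem Stp.le (hT : Legal p T) {τ x y : ℕ} (h : Stp p T τ x y) (hx : x ≤ T.length) :
    y ≤ T.length := by
  rcases h with rfl | ⟨i, h1, h2, _, h4⟩
  · exact hx
  · have := (hT i h1 h2).1
    rcases h4 with ⟨_, rfl⟩ | ⟨_, rfl⟩ <;> omega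

theorem walk_of_pos (hT : Legal p T) {pos : ℕ → ℕ} (h0 : pos 0 = 0) {t : ℕ}
    (hs : ∀ τ < t, Stp p T τ (pos τ) (pos (τ + 1))) : ∀ τ ≤ t, pos τ ≤ T.length ∧
      Wk p T (Reg T T.length 0) 0 0 (pos τ) τ ((Finset.range (τ + 1)).image pos) := by
  intro τ
  induction τ with
  | zero =>
    intro _
    refine ⟨by omega, ?_⟩
    rw [h0, show (Finset.range (0 + 1)).image pos = {0} from by simp [h0]]
    exact Wk.nil ((reg_all hT).2 (Nat.zero_le _))
  | succ τ ih =>
    intro hτ
    obtain ⟨h1, h2⟩ := ih (by omega)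
    have h3 := hs τ (by omega)
    have h4 := h3.le hT h1
    refine ⟨h4, ?_⟩
    rw [Finset.range_add_one, Finset.image_insert]
    exact h2.snoc (by rw [zero_add]; exact h3) ((reg_all hT).2 h4)

theorem pos_of_walk {A : ℕ → Prop} {y d : ℕ} {C : Finset ℕ} (h : Wk p T A 0 0 y d C) :
    ∃ pos : ℕ → ℕ, pos 0 = 0 ∧ (∀ τ < d, Stp p T τ (pos τ) (pos (τ + 1))) ∧ pos d = y ∧
      ∀ u ∈ C, ∃ τ ≤ d, pos τ = u := by
  induction h with
  | nil _ => exact ⟨fun _ => 0, rfl, by simp, rfl, fun u hu =>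
      ⟨0, le_rfl, (Finset.mem_singleton.1 hu).symm⟩⟩
  | @snoc y d C z _ hs _ ih =>
    obtain ⟨pos, h0, h1, h2, h3⟩ := ih
    refine ⟨fun τ => if τ ≤ d then pos τ else z, by simp [h0], ?_, by simp, ?_⟩
    · intro τ hτ
      simp only
      rcases Nat.lt_or_ge τ d with h | h
      · rw [if_pos (by omega), if_pos (by omega)]
        exact h1 τ h
      · have h4 : τ = d := by omega
        subst h4
        rw [if_pos le_rfl, if_neg (by omega), h2]
        rw [zero_add] at hs
        exact hs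
    · intro u hu
      rcases Finset.mem_insert.1 hu with rfl | hu
      · exact ⟨d + 1, le_rfl, by simp⟩
      · obtain ⟨τ, h4, h5⟩ := h3 u hu
        exact ⟨τ, by omega, by simp only; rw [if_pos h4]; exact h5⟩

theorem fact_of_covers (hp : 0 < p) (hT : Legal p T) {d : ℕ} (hd : d + 1 ≤ bnd p T)
    (h : Covers p T d) : (((T.length, 0), (one p (0, p), d)) : Fa) ∈ clo p T := by
  obtain ⟨pos, h0, h1, h2⟩ := h
  have h3 := (walk_of_pos hT h0 h1 d le_rfl).2
  rw [one_eq]
  refine complete hp hT T.length le_rfl 0 (Nat.zero_le _) {(0, p)} d _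
    (Fam.single ⟨hp, pos d, _, subset_refl _, h3, Or.inl rfl⟩) ?_ ?_
  · rintro y ⟨hy, _⟩
    obtain ⟨τ, hτ, rfl⟩ := h2 y hy
    exact Finset.mem_image.2 ⟨τ, Finset.mem_range.2 (by omega), rfl⟩
  · rw [Multiset.card_singleton]; omega

theorem covers_of_fact (hp : 0 < p) (hT : Legal p T) {d : ℕ}
    (h : (((T.length, 0), (one p (0, p), d)) : Fa) ∈ clo p T) : Covers p T d := by
  obtain ⟨_, _, X, C, hx, hF, hC⟩ := sem_clo hp hT h
  simp only at hx hF hC
  have hX : X = {(0, p)} := by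
    rw [one_eq] at hx
    unfold cnt at hx
    ext t
    by_cases ht : t ∈ tys p
    · have := List.map_inj_left.1 hx t ht
      simp only [Prod.mk.injEq, true_and] at this
      exact this.symm
    · have h1 : t ∉ X := fun h => ht (mem_tys.2 (hF.types hp t h))
      rw [Multiset.count_eq_zero.2 h1, Multiset.count_singleton, if_neg]
      rintro rfl
      exact ht (mem_tys.2 ⟨hp, le_rfl⟩)
  subst hX
  obtain ⟨e, C₁, d', C₂, ⟨_, y, C₀, h2, h3, _⟩, g2, rfl, rfl⟩ :=
    hF.inv 0 (by rw [Multiset.cons_zero])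
  obtain ⟨rfl, rfl⟩ := g2.zero rfl
  obtain ⟨pos, h4, h5, _, h7⟩ := pos_of_walk h3
  refine ⟨pos, h4, h5, ?_⟩
  intro v hv
  have := hC v ((reg_all hT).2 hv)
  rw [Finset.union_empty] at this
  exact h7 v (h2 this)

/-! ### An upper bound for the cover time -/

theorem edge_trip (hT : Legal p T) {u : ℕ} (h1 : 1 ≤ u) (h2 : u ≤ T.length) {x y : ℕ}
    (hxy : (x = u ∧ y = par T u) ∨ (x = par T u ∧ y = u)) :
    ∃ C, Wk p T (· ≤ T.length) x 0 y p C := by
  obtain ⟨h3, _, r, hr, h4⟩ := hT u h1 h2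
  have hx : x ≤ T.length := by rcases hxy with ⟨rfl, _⟩ | ⟨rfl, _⟩ <;> omega
  have hy : y ≤ T.length := by rcases hxy with ⟨_, rfl⟩ | ⟨_, rfl⟩ <;> omega
  have w1 : Wk p T (· ≤ T.length) x 0 x r {x} := Wk.wait (A := (· ≤ T.length)) hx 0 r
  have w2 := w1.snoc (z := y) (Or.inr ⟨u, h1, h2, by rw [zero_add, Nat.mod_eq_of_lt hr]; exact h4,
    hxy⟩) hy
  have w3 : Wk p T (· ≤ T.length) y (0 + (r + 1)) y (p - 1 - r) {y} :=
    Wk.wait (A := (· ≤ T.length)) hy _ _
  have w4 := w2.append w3 rfl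
  rw [show r + 1 + (p - 1 - r) = p from by omega] at w4
  exact ⟨_, w4⟩

theorem go_back (hT : Legal p T) : ∀ u ≤ T.length, ∃ n ≤ u,
    (∃ C, Wk p T (· ≤ T.length) 0 0 u (p * n) C) ∧ ∃ C, Wk p T (· ≤ T.length) u 0 0 (p * n) C := by
  intro u
  induction u using Nat.strong_induction_on with
  | _ u ih =>
    intro hu
    rcases Nat.eq_zero_or_pos u with rfl | hpos
    · exact ⟨0, le_rfl, ⟨_, Wk.nil (Nat.zero_le _)⟩, ⟨_, Wk.nil (Nat.zero_le _)⟩⟩
    · have h1 := (hT u hpos hu).1
      obtain ⟨n, hn, ⟨C, w1⟩, ⟨C', w2⟩⟩ := ih (par T u) h1 (by omega)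
      obtain ⟨C₁, w3⟩ := edge_trip hT hpos hu (x := par T u) (y := u) (Or.inr ⟨rfl, rfl⟩)
      obtain ⟨C₂, w4⟩ := edge_trip hT hpos hu (x := u) (y := par T u) (Or.inl ⟨rfl, rfl⟩)
      refine ⟨n + 1, by omega, ⟨C ∪ C₁, ?_⟩, ⟨C₂ ∪ C', ?_⟩⟩
      · have := w1.append w3 (by simp)
        rw [show p * n + p = p * (n + 1) from by ring] at this
        exact this
      · have := w4.append w2 (by simp)
        rw [show p + p * n = p * (n + 1) from by ring] at this
        exact this

theorem tour (hT : Legal p T) : ∀ n ≤ T.length, ∃ j ≤ 2 * (T.length * n), ∃ C,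
    Wk p T (· ≤ T.length) 0 0 0 (p * j) C ∧ ∀ u ≤ n, u ∈ C := by
  intro n
  induction n with
  | zero =>
    intro _
    exact ⟨0, le_rfl, {0}, Wk.nil (Nat.zero_le _), by simp⟩
  | succ n ih =>
    intro hn
    obtain ⟨j, hj, C, w, hC⟩ := ih (by omega)
    obtain ⟨m, hm, ⟨C₁, w1⟩, ⟨C₂, w2⟩⟩ := go_back hT (n + 1) hn
    refine ⟨j + (m + m), ?_, C ∪ (C₁ ∪ C₂), ?_, ?_⟩
    · nlinarith
    · have h1 := w.append (w1.append w2 (by simp)) (by simp)
      rw [show p * j + (p * m + p * m) = p * (j + (m + m)) from by ring] at h1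
      exact h1
    · intro u hu
      rcases Nat.lt_or_ge n u with h | h
      · have h2 : u = n + 1 := by omega
        subst h2
        exact Finset.mem_union_right _ (Finset.mem_union_left _ w1.mem_end)
      · exact Finset.mem_union_left _ (hC u h)

theorem exists_covers (hT : Legal p T) : ∃ t, t + 1 ≤ bnd p T ∧ Covers p T t := by
  obtain ⟨j, hj, C, w, hC⟩ := tour hT T.length le_rfl
  refine ⟨p * j, ?_, ?_⟩
  · unfold bnd
    have : p * j ≤ p * (2 * (T.length * T.length)) := Nat.mul_le_mul_left _ hj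
    have e : p * (2 * (T.length * T.length)) = 2 * p * (T.length * T.length) := by ring
    omega
  · obtain ⟨pos, h4, h5, _, h7⟩ := pos_of_walk w
    exact ⟨pos, h4, h5, fun v hv => h7 v (hC v hv)⟩

theorem out_eq (hp : 0 < p) (hT : Legal p T) : out p T = coverTime p T := by
  obtain ⟨t, ht, hc⟩ := exists_covers hT
  have h1 : coverTime p T ≤ t := Nat.sInf_le hc
  have h2 : Covers p T (coverTime p T) :=
    Nat.sInf_mem (s := {t | Covers p T t}) ⟨t, hc⟩
  have h3 := fact_of_covers hp hT (by omega) h2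
  unfold out
  rw [List.head?_filter, List.find?_range_eq_some.2 ⟨by simpa using h3, ?_, ?_⟩]
  · exact List.mem_range.2 (by omega)
  · intro j hj
    have : ¬ Covers p T j := Nat.notMem_of_lt_sInf hj
    simp only [Bool.not_eq_true', decide_eq_false_iff_not]
    exact fun h => this (covers_of_fact hp hT h)

end Pool.Agent.H801.Pt
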