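import Pool.Agent.H801.Pt.Walk

/-!
# Lifting families through an edge, and splitting families
-/

namespace Pool.Agent.H801.Pt

/-- the type of a fragment, with the edge to the parent added -/
def lift (p : ℕ) (t : ℕ × ℕ) : ℕ × ℕ :=
  ((t.1 + (p - 1)) % p, if t.2 = p then p else (t.2 + 1) % p)

/-- can the fragment be lifted? -/
def okT (p : ℕ) (T : Tr) (c : ℕ) (t : ℕ × ℕ) : Bool :=
  pre T c ((t.1 + (p - 1)) % p) && (decide (t.2 = p) || pre T c t.2)

/-- the cost of a lift -/
def costT (p : ℕ) (t : ℕ × ℕ) : ℕ := if t.2 = p then 1 else 2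

variable {p : ℕ} {T : Tr}

theorem mod1 (hp : 0 < p) (a : ℕ) : ((a + (p - 1)) % p + 1) % p = a % p := by
  rw [Nat.mod_add_mod, add_assoc, Nat.sub_add_cancel hp, Nat.add_mod_right]

theorem mod2 (hp : 0 < p) {b : ℕ} (hb : b < p) : ((b + 1) % p + (p - 1)) % p = b := by
  rw [Nat.mod_add_mod, add_assoc, Nat.add_sub_cancel' hp, Nat.add_mod_right, Nat.mod_eq_of_lt hb]

theorem Frag.lift' (hp : 0 < p) {A A' : ℕ → Prop} {v c : ℕ} (hc1 : 1 ≤ c) (hc2 : c ≤ T.length)
    (hv : v = par T c) {t : ℕ × ℕ} {e : ℕ} {C : Finset ℕ} (h : Frag p T A c t e C)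
    (hok : okT p T c t = true) (hA : ∀ u, A u → A' u) (hv' : A' v) :
    Frag p T A' v (lift p t) (e + costT p t) C := by
  obtain ⟨h1, y, C₀, h2, h3, h4⟩ := h
  unfold okT at hok
  rw [Bool.and_eq_true, Bool.or_eq_true, decide_eq_true_eq] at hok
  obtain ⟨hok1, hok2⟩ := hok
  set a₁ := (t.1 + (p - 1)) % p with ha₁
  have ha₁p : a₁ < p := Nat.mod_lt _ hp
  have hAc : A' c := hA _ (h3.inside c h3.mem_start)
  have w1 : Wk p T A' v a₁ c 1 (insert c {v}) := by
    refine Wk.snoc (Wk.nil hv') (Or.inr ⟨c, hc1, hc2, ?_, Or.inr ⟨hv, rfl⟩⟩) hAc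
    rw [add_zero, Nat.mod_eq_of_lt ha₁p]
    exact hok1
  have e1 : t.1 % p = (a₁ + 1) % p := by rw [ha₁, mod1 hp]
  have w2 := w1.append (h3.mono hA) e1
  have e2 : (a₁ + (1 + e)) % p = (t.1 + e) % p := by
    rw [← add_assoc, Nat.add_mod, ← e1, ← Nat.add_mod]
  have hsub : C ⊆ insert c {v} ∪ C₀ := h2.trans Finset.subset_union_right
  by_cases ht : t.2 = p
  · refine ⟨ha₁p, y, _, hsub, ?_, Or.inl ?_⟩
    · have e3 : e + costT p t = 1 + e := by unfold costT; rw [if_pos ht]; ring
      rw [e3]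
      exact w2
    · unfold lift; rw [if_pos ht]
  · rcases h4 with h4 | ⟨rfl, h4⟩
    · exact absurd h4 ht
    have h5 : pre T y t.2 = true := by
      rcases hok2 with h5 | h5
      · exact absurd h5 ht
      · exact h5
    have w3 := w2.snoc (z := v) (Or.inr ⟨y, hc1, hc2, by rw [e2, ← h4]; exact h5,
      Or.inl ⟨rfl, hv⟩⟩) hv'
    refine ⟨ha₁p, v, _, hsub.trans (Finset.subset_insert v _), ?_, Or.inr ⟨rfl, ?_⟩⟩
    · have e3 : e + costT p t = 1 + e + 1 := by unfold costT; rw [if_neg ht]; ring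
      rw [e3]
      exact w3
    · unfold lift costT
      rw [if_neg ht, if_neg ht]
      change (t.2 + 1) % p = (a₁ + (e + 2)) % p
      rw [show a₁ + (e + 2) = (a₁ + (1 + e)) + 1 from by ring, Nat.add_mod (a₁ + (1 + e)), e2,
        ← Nat.add_mod, h4, Nat.mod_add_mod]

theorem Fam.lift' (hp : 0 < p) {A A' : ℕ → Prop} {v c : ℕ} (hc1 : 1 ≤ c) (hc2 : c ≤ T.length)
    (hv : v = par T c) (hA : ∀ u, A u → A' u) (hv' : A' v) {X : Multiset (ℕ × ℕ)} {d : ℕ}
    {C : Finset ℕ} (h : Fam p T A c X d C) (hok : ∀ t ∈ X, okT p T c t = true) :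
    Fam p T A' v (X.map (lift p)) (d + (X.map (costT p)).sum) C := by
  induction h with
  | nil => exact Fam.nil
  | @cons t e C X d C' h1 h2 ih =>
    have h3 := h1.lift' hp hc1 hc2 hv (hok t (Multiset.mem_cons_self t X)) hA hv'
    have h4 := ih (fun u hu => hok u (Multiset.mem_cons_of_mem hu))
    rw [Multiset.map_cons, Multiset.map_cons, Multiset.sum_cons,
      show e + d + (costT p t + (X.map (costT p)).sum) =
        (e + costT p t) + (d + (X.map (costT p)).sum) from by ring]
    exact Fam.cons h3 h4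

/-- merging of fragments -/
inductive Mg (p : ℕ) : Multiset (ℕ × ℕ) → Multiset (ℕ × ℕ) → Prop
  | refl (X : Multiset (ℕ × ℕ)) : Mg p X X
  | step {a b c : ℕ} {Z X : Multiset (ℕ × ℕ)} : a < p → b < p → c ≤ p →
      Mg p ((a, c) ::ₘ Z) X → Mg p ((a, b) ::ₘ (b, c) ::ₘ Z) X

theorem Mg.trans {X Y Z : Multiset (ℕ × ℕ)} (h : Mg p X Y) (h' : Mg p Y Z) : Mg p X Z := by
  induction h with
  | refl => exact h'
  | step h1 h2 h3 _ ih => exact Mg.step h1 h2 h3 (ih h')

theorem Mg.add {X Y : Multiset (ℕ × ℕ)} (h : Mg p X Y) (W : Multiset (ℕ × ℕ)) :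
    Mg p (X + W) (Y + W) := by
  induction h with
  | refl => exact Mg.refl _
  | step h1 h2 h3 _ ih =>
    rw [Multiset.cons_add, Multiset.cons_add]
    refine Mg.step h1 h2 h3 ?_
    rw [Multiset.cons_add] at ih
    exact ih

/-- the open piece of a walk is in the region of `v` -/
def StA (p : ℕ) (T : Tr) (k v a y e : ℕ) (C : Finset ℕ) : Prop :=
  ∃ (P Q : Multiset (ℕ × ℕ)) (dP dQ : ℕ) (CP CQ : Finset ℕ) (b f : ℕ) (C₀ : Finset ℕ),
    Fam p T (Reg T k v) v P dP CP ∧ Fam p T (Reg T k (T.length - k)) (T.length - k) Q dQ CQ ∧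
    (∀ t ∈ Q, okT p T (T.length - k) t = true) ∧ Wk p T (Reg T k v) v b y f C₀ ∧ b < p ∧
    (b + f) % p = (a + e) % p ∧ e = dP + dQ + (Q.map (costT p)).sum + f ∧
    C ⊆ CP ∪ CQ ∪ C₀ ∧ (∀ c ≤ p, Mg p ((b, c) ::ₘ (P + Q.map (lift p))) {(a, c)}) ∧
    Multiset.card P + Multiset.card Q + dP + dQ + f ≤ e

/-- the open piece of a walk is in the region of the last vertex -/
def StB (p : ℕ) (T : Tr) (k v a y e : ℕ) (C : Finset ℕ) : Prop :=
  ∃ (P Q : Multiset (ℕ × ℕ)) (dP dQ : ℕ) (CP CQ : Finset ℕ) (b f : ℕ) (C₀ : Finset ℕ),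
    Fam p T (Reg T k v) v P dP CP ∧ Fam p T (Reg T k (T.length - k)) (T.length - k) Q dQ CQ ∧
    (∀ t ∈ Q, okT p T (T.length - k) t = true) ∧
    Wk p T (Reg T k (T.length - k)) (T.length - k) ((b + 1) % p) y f C₀ ∧ b < p ∧
    pre T (T.length - k) b = true ∧
    (b + 1 + f) % p = (a + e) % p ∧ e = dP + dQ + (Q.map (costT p)).sum + 1 + f ∧
    C ⊆ CP ∪ CQ ∪ C₀ ∧ (∀ c ≤ p, Mg p ((b, c) ::ₘ (P + Q.map (lift p))) {(a, c)}) ∧
    Multiset.card P + Multiset.card Q + dP + dQ + f ≤ e

theorem sub_aux {C CP CQ C₀ : Finset ℕ} {z : ℕ} (h : C ⊆ CP ∪ CQ ∪ C₀) :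
    insert z C ⊆ CP ∪ CQ ∪ insert z C₀ := by
  intro u hu
  rcases Finset.mem_insert.1 hu with rfl | hu
  · simp
  · have := h hu
    simp only [Finset.mem_union, Finset.mem_insert] at this ⊢
    tauto

theorem decomp (hp : 0 < p) (hT : Legal p T) {k v : ℕ} (hk : k < T.length)
    (hv : v = par T (T.length - k)) {a : ℕ} (ha : a < p) {y e : ℕ} {C : Finset ℕ}
    (h : Wk p T (Reg T (k + 1) v) v a y e C) :
    (Reg T k v y ∧ StA p T k v a y e C) ∨ (Reg T k (T.length - k) y ∧ StB p T k v a y e C) := by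
  have hpar := (hT (T.length - k) (by omega) (by omega)).1
  have hvw : v ≠ T.length - k := by omega
  have hRv : Reg T k v v := ⟨by omega, rep_of_le hk.le (by omega)⟩
  have hRw : Reg T k (T.length - k) (T.length - k) := ⟨by omega, rep_of_le hk.le le_rfl⟩
  have hsplit : ∀ z, Reg T (k + 1) v z → Reg T k v z ∨ Reg T k (T.length - k) z := by
    intro z hz
    rw [hv] at hz ⊢
    exact (reg_succ_par (by omega) z).1 hz
  induction h with
  | nil _ =>
    refine Or.inl ⟨hRv, 0, 0, 0, 0, ∅, ∅, a, 0, {v}, Fam.nil, Fam.nil, by simp, Wk.nil hRv, ha,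
      rfl, by simp, by simp, ?_, by simp⟩
    intro c _
    simp only [Multiset.map_zero, add_zero]
    exact Mg.refl _
  | @snoc y e C z hw hs hz ih =>
    rcases ih with ⟨hy, P, Q, dP, dQ, CP, CQ, b, f, C₀, g1, g2, g3, g4, g5, g6, g7, g8, g9, g10⟩ |
      ⟨hy, P, Q, dP, dQ, CP, CQ, b, f, C₀, g1, g2, g3, g4, g5, g5', g6, g7, g8, g9, g10⟩
    · rcases hsplit z hz with hz | hz
      · -- extend in the region of `v`
        refine Or.inl ⟨hz, P, Q, dP, dQ, CP, CQ, b, f + 1, insert z C₀, g1, g2, g3,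
          g4.snoc (hs.cong g6.symm) hz, g5, ?_, by omega, sub_aux g8, g9, by omega⟩
        rw [← add_assoc, ← add_assoc, Nat.add_mod, g6, ← Nat.add_mod]
      · -- cross into the region of the last vertex
        obtain ⟨rfl, rfl, _, hpre⟩ := cross hT hk hvw hy hz (Or.inl hs)
        set τ := (a + e) % p with hτ
        have hτp : τ < p := Nat.mod_lt _ hp
        have hfr : Frag p T (Reg T k y) y (b, τ) f C₀ :=
          ⟨g5, y, C₀, subset_refl _, g4, Or.inr ⟨rfl, by simp only; rw [g6]⟩⟩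
        refine Or.inr ⟨hRw, (b, τ) ::ₘ P, Q, f + dP, dQ, C₀ ∪ CP, CQ, τ, 0, {T.length - k},
          Fam.cons hfr g1, g2, g3, Wk.nil hRw, hτp, ?_, ?_, by omega, ?_, ?_, ?_⟩
        · exact hpre
        · rw [add_zero, hτ, Nat.mod_add_mod, add_assoc]
        · intro u hu
          rcases Finset.mem_insert.1 hu with rfl | hu
          · simp
          · have := g8 hu
            simp only [Finset.mem_union, Finset.mem_singleton] at this ⊢
            tauto
        · intro c hc
          rw [Multiset.cons_add, Multiset.cons_swap]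
          exact Mg.step g5 hτp hc (g9 c hc)
        · rw [Multiset.card_cons]; omega
    · rcases hsplit z hz with hz | hz
      · -- cross back
        obtain ⟨rfl, rfl, _, hpre⟩ := cross hT hk hvw hz hy (Or.inr hs)
        set τ := (a + e) % p with hτ
        have hτp : τ < p := Nat.mod_lt _ hp
        set w := T.length - k with hw'
        have e1 : ((b + 1) % p + f) % p = τ := by rw [Nat.mod_add_mod, g6]
        have hfr : Frag p T (Reg T k w) w ((b + 1) % p, τ) f C₀ :=
          ⟨Nat.mod_lt _ hp, w, C₀, subset_refl _, g4, Or.inr ⟨rfl, by simp only; rw [e1]⟩⟩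
        have hτne : τ ≠ p := by omega
        have hli : lift p ((b + 1) % p, τ) = (b, (τ + 1) % p) := by
          unfold lift
          rw [if_neg (by simpa using hτne)]
          simp only
          rw [mod2 hp g5]
        refine Or.inl ⟨hz, P, ((b + 1) % p, τ) ::ₘ Q, dP, f + dQ, CP, C₀ ∪ CQ, (τ + 1) % p, 0, {z},
          g1, Fam.cons hfr g2, ?_, Wk.nil hRv, Nat.mod_lt _ hp, ?_, ?_, ?_, ?_, ?_⟩
        · intro t ht
          rcases Multiset.mem_cons.1 ht with rfl | ht
          · unfold okT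
            simp only
            rw [mod2 hp g5, g5', hpre]
            simp
          · exact g3 t ht
        · rw [add_zero, hτ, Nat.mod_mod, Nat.mod_add_mod, add_assoc]
        · rw [Multiset.map_cons, Multiset.sum_cons]
          have : costT p ((b + 1) % p, τ) = 2 := by unfold costT; rw [if_neg (by simpa using hτne)]
          rw [this]
          omega
        · intro u hu
          rcases Finset.mem_insert.1 hu with rfl | hu
          · simp
          · have := g8 hu
            simp only [Finset.mem_union, Finset.mem_singleton] at this ⊢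
            tauto
        · intro c hc
          rw [Multiset.map_cons, hli, Multiset.add_cons, Multiset.cons_swap]
          exact Mg.step g5 (Nat.mod_lt _ hp) hc (g9 c hc)
        · rw [Multiset.card_cons]; omega
      · -- extend in the region of the last vertex
        refine Or.inr ⟨hz, P, Q, dP, dQ, CP, CQ, b, f + 1, insert z C₀, g1, g2, g3,
          g4.snoc (hs.cong ?_) hz, g5, g5', ?_, by omega, sub_aux g8, g9, by omega⟩
        · rw [← g6, Nat.mod_add_mod]
        · rw [← add_assoc, ← add_assoc, Nat.add_mod, g6, ← Nat.add_mod]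

/-- the conclusion of the splitting of a family -/
def Spl (p : ℕ) (T : Tr) (k v : ℕ) (X : Multiset (ℕ × ℕ)) (d : ℕ) (C : Finset ℕ) : Prop :=
  ∃ (P Q : Multiset (ℕ × ℕ)) (dP dQ : ℕ) (CP CQ : Finset ℕ),
    Fam p T (Reg T k v) v P dP CP ∧ Fam p T (Reg T k (T.length - k)) (T.length - k) Q dQ CQ ∧
    (∀ t ∈ Q, okT p T (T.length - k) t = true) ∧ d = dP + dQ + (Q.map (costT p)).sum ∧
    C ⊆ CP ∪ CQ ∧ Mg p (P + Q.map (lift p)) X ∧
    Multiset.card P + Multiset.card Q + dP + dQ ≤ d + Multiset.card X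

theorem split_frag (hp : 0 < p) (hT : Legal p T) {k v : ℕ} (hk : k < T.length)
    (hv : v = par T (T.length - k)) {t : ℕ × ℕ} {e : ℕ} {C : Finset ℕ}
    (h : Frag p T (Reg T (k + 1) v) v t e C) : Spl p T k v {t} e C := by
  obtain ⟨h1, y, C₁, h2, h3, h4⟩ := h
  have hpar := (hT (T.length - k) (by omega) (by omega)).1
  have hRv : Reg T k v v := ⟨by omega, rep_of_le hk.le (by omega)⟩
  rcases decomp hp hT hk hv h1 h3 with ⟨hy, P, Q, dP, dQ, CP, CQ, b, f, C₀, g1, g2, g3, g4, g5, g6,
    g7, g8, g9, g10⟩ | ⟨hy, P, Q, dP, dQ, CP, CQ, b, f, C₀, g1, g2, g3, g4, g5, g5', g6, g7, g8,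
    g9, g10⟩
  · have ht2 : t.2 ≤ p := by
      rcases h4 with h4 | ⟨_, h4⟩
      · omega
      · rw [h4]; exact (Nat.mod_lt _ hp).le
    have hfr : Frag p T (Reg T k v) v (b, t.2) f C₀ := by
      refine ⟨g5, y, C₀, subset_refl _, g4, ?_⟩
      simp only
      rcases h4 with h4 | ⟨h4, h5⟩
      · exact Or.inl h4
      · exact Or.inr ⟨h4, by rw [h5, g6]⟩
    refine ⟨(b, t.2) ::ₘ P, Q, f + dP, dQ, C₀ ∪ CP, CQ, Fam.cons hfr g1, g2, g3, by omega, ?_, ?_, ?_⟩
    · intro u hu
      have := g8 (h2 hu)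
      simp only [Finset.mem_union] at this ⊢
      tauto
    · rw [Multiset.cons_add]
      exact g9 t.2 ht2
    · rw [Multiset.card_cons, Multiset.card_singleton]; omega
  · have h5 : t.2 = p := by
      rcases h4 with h4 | ⟨rfl, _⟩
      · exact h4
      · exfalso
        have := hRv.2.symm.trans hy.2
        omega
    have hfr : Frag p T (Reg T k (T.length - k)) (T.length - k) ((b + 1) % p, p) f C₀ :=
      ⟨Nat.mod_lt _ hp, y, C₀, subset_refl _, g4, Or.inl rfl⟩
    have hli : lift p ((b + 1) % p, p) = (b, p) := by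
      unfold lift
      rw [if_pos rfl]
      simp only
      rw [mod2 hp g5]
    refine ⟨P, ((b + 1) % p, p) ::ₘ Q, dP, f + dQ, CP, C₀ ∪ CQ, g1, Fam.cons hfr g2, ?_, ?_, ?_,
      ?_, ?_⟩
    · intro u hu
      rcases Multiset.mem_cons.1 hu with rfl | hu
      · unfold okT
        simp only
        rw [mod2 hp g5, g5']
        simp
      · exact g3 u hu
    · rw [Multiset.map_cons, Multiset.sum_cons]
      have : costT p ((b + 1) % p, p) = 1 := by unfold costT; rw [if_pos rfl]
      rw [this]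
      omega
    · intro u hu
      have := g8 (h2 hu)
      simp only [Finset.mem_union] at this ⊢
      tauto
    · rw [Multiset.map_cons, hli, Multiset.add_cons]
      have := g9 p le_rfl
      have e3 : t = (t.1, p) := by rw [← h5]
      rw [e3]
      exact this
    · rw [Multiset.card_cons, Multiset.card_singleton]; omega

theorem split_fam (hp : 0 < p) (hT : Legal p T) {k v : ℕ} (hk : k < T.length)
    (hv : v = par T (T.length - k)) {X : Multiset (ℕ × ℕ)} {d : ℕ} {C : Finset ℕ}
    (h : Fam p T (Reg T (k + 1) v) v X d C) : Spl p T k v X d C := by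
  induction h with
  | nil => exact ⟨0, 0, 0, 0, ∅, ∅, Fam.nil, Fam.nil, by simp, by simp, by simp,
      by simpa using Mg.refl _, by simp⟩
  | @cons t e C X d C' h1 h2 ih =>
    obtain ⟨P, Q, dP, dQ, CP, CQ, g1, g2, g3, g4, g5, g6, g7⟩ := split_frag hp hT hk hv h1
    obtain ⟨P', Q', dP', dQ', CP', CQ', g1', g2', g3', g4', g5', g6', g7'⟩ := ih
    refine ⟨P + P', Q + Q', dP + dP', dQ + dQ', CP ∪ CP', CQ ∪ CQ', g1.add g1', g2.add g2', ?_, ?_,
      ?_, ?_, ?_⟩
    · intro u hu
      rcases Multiset.mem_add.1 hu with hu | hu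
      · exact g3 u hu
      · exact g3' u hu
    · rw [Multiset.map_add, Multiset.sum_add]; omega
    · intro u hu
      rcases Finset.mem_union.1 hu with hu | hu
      · have := g5 hu
        simp only [Finset.mem_union] at this ⊢
        tauto
      · have := g5' hu
        simp only [Finset.mem_union] at this ⊢
        tauto
    · have e1 : P + P' + (Q + Q').map (lift p) =
          (P + Q.map (lift p)) + (P' + Q'.map (lift p)) := by
        rw [Multiset.map_add]; abel
      have e2 : t ::ₘ X = X + {t} := by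
        rw [← Multiset.singleton_add, add_comm]
      rw [e1]
      refine (g6.add _).trans ?_
      rw [add_comm, e2]
      exact g6'.add _
    · rw [Multiset.card_add, Multiset.card_add, Multiset.card_cons]
      rw [Multiset.card_singleton] at g7
      omega

end Pool.Agent.H801.Pt
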