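import Pool.Agent.H801.Pt.Correct
import Pool.Agent.NPC.Dec

/-!
# The algorithm runs in polynomial time
-/

namespace Pool.Agent.H801.Pt

open Pool.Agent.NPC

variable {α : Type} [TEnc α] {p : ℕ}

theorem p_par {T : α → Tr} {i : α → ℕ} (hT : Poly T) (hi : Poly i) :
    Poly (fun a => par (T a) (i a)) :=
  Poly.fst (Poly.getD hT (Poly.sub hi (NPC.Poly.const 1)) (NPC.Poly.const (0, [])))

theorem p_pre {T : α → Tr} {i r : α → ℕ} (hT : Poly T) (hi : Poly i) (hr : Poly r) :
    Poly (fun a => pre (T a) (i a) (r a)) :=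
  Poly.getD (Poly.snd (Poly.getD hT (Poly.sub hi (NPC.Poly.const 1)) (NPC.Poly.const (0, []))))
    hr (NPC.Poly.const false)

theorem p_delta {s t : α → ℕ × ℕ} (hs : Poly s) (ht : Poly t) :
    Poly (fun a => if s a = t a then 1 else 0) :=
  Poly.ite (Poly.decide_eq hs ht) (NPC.Poly.const 1) (NPC.Poly.const 0)

theorem p_addT {x : α → Cx} {t : α → ℕ × ℕ} (hx : Poly x) (ht : Poly t) :
    Poly (fun a => addT (x a) (t a)) := by
  unfold addT
  refine NPC.Poly.map (F := fun (a : α) (q : (ℕ × ℕ) × ℕ) =>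
    ((q.1, q.2 + if q.1 = t a then 1 else 0) : (ℕ × ℕ) × ℕ)) hx ?_
  exact Poly.pair (Poly.fst (Poly.snd Poly.id)) (Poly.add (Poly.snd (Poly.snd Poly.id))
    (p_delta (Poly.fst (Poly.snd Poly.id)) (ht.comp (Poly.fst Poly.id))))

theorem p_subT {x : α → Cx} {t : α → ℕ × ℕ} (hx : Poly x) (ht : Poly t) :
    Poly (fun a => subT (x a) (t a)) := by
  unfold subT
  refine NPC.Poly.map (F := fun (a : α) (q : (ℕ × ℕ) × ℕ) =>
    ((q.1, q.2 - if q.1 = t a then 1 else 0) : (ℕ × ℕ) × ℕ)) hx ?_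
  exact Poly.pair (Poly.fst (Poly.snd Poly.id)) (Poly.sub (Poly.snd (Poly.snd Poly.id))
    (p_delta (Poly.fst (Poly.snd Poly.id)) (ht.comp (Poly.fst Poly.id))))

theorem p_atT {x : α → Cx} {t : α → ℕ × ℕ} (hx : Poly x) (ht : Poly t) :
    Poly (fun a => atT (x a) (t a)) := by
  unfold atT
  refine Poly.sum (NPC.Poly.map (F := fun (_ : α) (q : (ℕ × ℕ) × ℕ) => q.2) ?_
    (Poly.snd (Poly.snd Poly.id)))
  exact Poly.filter (p := fun (a : α) (q : (ℕ × ℕ) × ℕ) => decide (q.1 = t a)) hx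
    (Poly.decide_eq (Poly.fst (Poly.snd Poly.id)) (ht.comp (Poly.fst Poly.id)))

theorem p_one {t : α → ℕ × ℕ} (ht : Poly t) : Poly (fun a => one p (t a)) := by
  unfold one
  refine NPC.Poly.map (F := fun (a : α) (s : ℕ × ℕ) =>
    ((s, if s = t a then 1 else 0) : (ℕ × ℕ) × ℕ)) (NPC.Poly.const (tys p)) ?_
  exact Poly.pair (Poly.snd Poly.id) (p_delta (Poly.snd Poly.id) (ht.comp (Poly.fst Poly.id)))

theorem p_okT {T : α → Tr} {c : α → ℕ} {t : α → ℕ × ℕ} (hT : Poly T) (hc : Poly c)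
    (ht : Poly t) : Poly (fun a => okT p (T a) (c a) (t a)) := by
  unfold okT
  exact Poly.and (p_pre hT hc (Poly.mod (Poly.add (Poly.fst ht) (NPC.Poly.const (p - 1)))
    (NPC.Poly.const p))) (Poly.or (Poly.decide_eq (Poly.snd ht) (NPC.Poly.const p))
      (p_pre hT hc (Poly.snd ht)))

theorem p_costT {t : α → ℕ × ℕ} (ht : Poly t) : Poly (fun a => costT p (t a)) := by
  unfold costT
  exact Poly.ite (Poly.decide_eq (Poly.snd ht) (NPC.Poly.const p)) (NPC.Poly.const 1)
    (NPC.Poly.const 2)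

theorem p_unl {t : α → ℕ × ℕ} (ht : Poly t) : Poly (fun a => unl p (t a)) := by
  unfold unl
  exact Poly.pair (Poly.mod (Poly.add (Poly.fst ht) (NPC.Poly.const 1)) (NPC.Poly.const p))
    (Poly.ite (Poly.decide_eq (Poly.snd ht) (NPC.Poly.const p)) (NPC.Poly.const p)
      (Poly.mod (Poly.add (Poly.snd ht) (NPC.Poly.const (p - 1))) (NPC.Poly.const p)))

theorem p_comb {x x' : α → Cx} (hx : Poly x) (hx' : Poly x') :
    Poly (fun a => comb p (x a) (x' a)) := by
  unfold comb
  refine NPC.Poly.map (F := fun (a : α) (q : (ℕ × ℕ) × ℕ) =>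
    ((q.1, q.2 + atT (x' a) (unl p q.1)) : (ℕ × ℕ) × ℕ)) hx ?_
  exact Poly.pair (Poly.fst (Poly.snd Poly.id)) (Poly.add (Poly.snd (Poly.snd Poly.id))
    (p_atT (hx'.comp (Poly.fst Poly.id)) (p_unl (Poly.fst (Poly.snd Poly.id)))))

theorem p_okX {T : α → Tr} {c : α → ℕ} {x : α → Cx} (hT : Poly T) (hc : Poly c)
    (hx : Poly x) : Poly (fun a => okX p (T a) (c a) (x a)) := by
  unfold okX
  refine Poly.all (p := fun (a : α) (q : (ℕ × ℕ) × ℕ) =>
    decide (q.2 = 0) || okT p (T a) (c a) q.1) hx ?_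
  exact Poly.or (Poly.decide_eq (Poly.snd (Poly.snd Poly.id)) (NPC.Poly.const 0))
    (p_okT (hT.comp (Poly.fst Poly.id)) (hc.comp (Poly.fst Poly.id))
      (Poly.fst (Poly.snd Poly.id)))

theorem p_costX {x : α → Cx} (hx : Poly x) : Poly (fun a => costX p (x a)) := by
  unfold costX
  refine Poly.sum (NPC.Poly.map (F := fun (_ : α) (q : (ℕ × ℕ) × ℕ) => q.2 * costT p q.1) hx ?_)
  exact Poly.mul (Poly.snd (Poly.snd Poly.id)) (p_costT (Poly.fst (Poly.snd Poly.id)))

theorem p_canM {x : α → Cx} {q : α → ℕ × ℕ × ℕ} (hx : Poly x) (hq : Poly q) :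
    Poly (fun a => canM (x a) (q a)) := by
  unfold canM
  have h1 : Poly (fun a => ((q a).1, (q a).2.1)) := Poly.pair (Poly.fst hq) (Poly.fst (Poly.snd hq))
  have h2 : Poly (fun a => ((q a).2.1, (q a).2.2)) :=
    Poly.pair (Poly.fst (Poly.snd hq)) (Poly.snd (Poly.snd hq))
  exact Poly.and (Poly.decide_le (NPC.Poly.const 1) (p_atT hx h1))
    (Poly.decide_le (NPC.Poly.const 1) (p_atT (p_subT hx h1) h2))

theorem p_doM {x : α → Cx} {q : α → ℕ × ℕ × ℕ} (hx : Poly x) (hq : Poly q) :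
    Poly (fun a => doM (x a) (q a)) := by
  unfold doM
  have h1 : Poly (fun a => ((q a).1, (q a).2.1)) := Poly.pair (Poly.fst hq) (Poly.fst (Poly.snd hq))
  have h2 : Poly (fun a => ((q a).2.1, (q a).2.2)) :=
    Poly.pair (Poly.fst (Poly.snd hq)) (Poly.snd (Poly.snd hq))
  have h3 : Poly (fun a => ((q a).1, (q a).2.2)) := Poly.pair (Poly.fst hq) (Poly.snd (Poly.snd hq))
  exact p_addT (p_subT (p_subT hx h1) h2) h3

theorem p_un {T : α → Tr} {f : α → Fa} (hT : Poly T) (hf : Poly f) :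
    Poly (fun a => un p (T a) (f a)) := by
  have hk : Poly (fun a => (f a).1.1) := Poly.fst (Poly.fst hf)
  have hv : Poly (fun a => (f a).1.2) := Poly.snd (Poly.fst hf)
  have hx : Poly (fun a => (f a).2.1) := Poly.fst (Poly.snd hf)
  have hd : Poly (fun a => (f a).2.2) := Poly.snd (Poly.snd hf)
  have hm : Poly (fun a => (T a).length) := Poly.length hT
  have hw : Poly (fun a => (T a).length - (f a).1.1) := Poly.sub hm hk
  unfold un
  refine Poly.append (Poly.append ?_ ?_) ?_
  · refine NPC.Poly.map (F := fun (a : α) (q : (ℕ × ℕ) × ℕ) =>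
      (((f a).1, (addT (f a).2.1 q.1, (f a).2.2 + q.2)) : Fa)) (NPC.Poly.const (atoms p)) ?_
    exact Poly.pair ((Poly.fst hf).comp (Poly.fst Poly.id)) (Poly.pair
      (p_addT (hx.comp (Poly.fst Poly.id)) (Poly.fst (Poly.snd Poly.id)))
      (Poly.add (hd.comp (Poly.fst Poly.id)) (Poly.snd (Poly.snd Poly.id))))
  · refine NPC.Poly.map (F := fun (a : α) (q : ℕ × ℕ × ℕ) =>
      (((f a).1, (doM (f a).2.1 q, (f a).2.2)) : Fa)) ?_ ?_
    · exact Poly.filter (p := fun (a : α) (q : ℕ × ℕ × ℕ) => canM (f a).2.1 q)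
        (NPC.Poly.const (trip p)) (p_canM (hx.comp (Poly.fst Poly.id)) (Poly.snd Poly.id))
    · exact Poly.pair ((Poly.fst hf).comp (Poly.fst Poly.id)) (Poly.pair
        (p_doM (hx.comp (Poly.fst Poly.id)) (Poly.snd Poly.id)) (hd.comp (Poly.fst Poly.id)))
  · refine Poly.ite ?_ ?_ (NPC.Poly.const [])
    · exact Poly.decide_and (Poly.decide_lt hk hm) (Poly.decide_and (Poly.decide_lt hv hw)
        (Poly.decide_not (Poly.decide_eq hv (p_par hT hw))))
    · exact Poly.cons (Poly.pair (Poly.pair (Poly.add hk (NPC.Poly.const 1)) hv) (Poly.snd hf))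
        (NPC.Poly.const [])

theorem p_bi {T : α → Tr} {f g : α → Fa} (hT : Poly T) (hf : Poly f) (hg : Poly g) :
    Poly (fun a => bi p (T a) (f a) (g a)) := by
  have hk : Poly (fun a => (f a).1.1) := Poly.fst (Poly.fst hf)
  have hv : Poly (fun a => (f a).1.2) := Poly.snd (Poly.fst hf)
  have hx : Poly (fun a => (f a).2.1) := Poly.fst (Poly.snd hf)
  have hd : Poly (fun a => (f a).2.2) := Poly.snd (Poly.snd hf)
  have hk' : Poly (fun a => (g a).1.1) := Poly.fst (Poly.fst hg)
  have hv' : Poly (fun a => (g a).1.2) := Poly.snd (Poly.fst hg)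
  have hx' : Poly (fun a => (g a).2.1) := Poly.fst (Poly.snd hg)
  have hd' : Poly (fun a => (g a).2.2) := Poly.snd (Poly.snd hg)
  have hm : Poly (fun a => (T a).length) := Poly.length hT
  have hw : Poly (fun a => (T a).length - (f a).1.1) := Poly.sub hm hk
  unfold bi
  refine Poly.ite ?_ ?_ (NPC.Poly.const [])
  · exact Poly.decide_and (Poly.decide_lt hk hm) (Poly.decide_and (Poly.decide_eq hk' hk)
      (Poly.decide_and (Poly.decide_eq hv (p_par hT hw)) (Poly.decide_and (Poly.decide_eq hv' hw)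
        (Poly.decide_bool (p_okX hT hw hx')))))
  · exact Poly.cons (Poly.pair (Poly.pair (Poly.add hk (NPC.Poly.const 1)) hv)
      (Poly.pair (p_comb hx hx') (Poly.add (Poly.add hd hd') (p_costX hx')))) (NPC.Poly.const [])

theorem u_bnd {T : α → Tr} (hT : Poly T) : UPoly (fun a => bnd p (T a)) := by
  unfold bnd
  exact UPoly.add (UPoly.mul (UPoly.const (2 * p)) (UPoly.mul (UPoly.length hT) (UPoly.length hT)))
    (UPoly.const 1)

theorem p_uni {B : α → ℕ} (hB : UPoly B) : ∀ L : List (ℕ × ℕ), Poly (fun a => uni L (B a))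
  | [] => NPC.Poly.const [[]]
  | t :: L => by
    unfold uni
    refine Poly.flatMap (F := fun (a : α) (r : Cx) => (List.range (B a + 2)).map
      fun c => (((t, c) :: r) : Cx)) (p_uni hB L) ?_
    refine NPC.Poly.map (F := fun (q : α × Cx) (c : ℕ) => (((t, c) :: q.2) : Cx))
      ((UPoly.add hB (UPoly.const 2)).range.comp (Poly.fst Poly.id)) ?_
    exact Poly.cons (Poly.pair (NPC.Poly.const t) (Poly.snd Poly.id))
      (Poly.snd (Poly.fst Poly.id))

theorem p_Un {T : α → Tr} (hT : Poly T) : Poly (fun a => Un p (T a)) := by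
  unfold Un
  have hr : Poly (fun a => List.range ((T a).length + 1)) :=
    (UPoly.add (UPoly.length hT) (UPoly.const 1)).range
  have hb := u_bnd (p := p) hT
  refine Poly.flatMap (F := fun (a : α) (k : ℕ) => (List.range ((T a).length + 1)).flatMap
    fun v => (uni (tys p) (bnd p (T a))).flatMap fun x => (List.range (bnd p (T a) + 1)).map
      fun d => (((k, v), (x, d)) : Fa)) hr ?_
  refine Poly.flatMap (F := fun (q : α × ℕ) (v : ℕ) => (uni (tys p) (bnd p (T q.1))).flatMap
    fun x => (List.range (bnd p (T q.1) + 1)).map fun d => (((q.2, v), (x, d)) : Fa))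
      (hr.comp (Poly.fst Poly.id)) ?_
  refine Poly.flatMap (F := fun (q : (α × ℕ) × ℕ) (x : Cx) =>
    (List.range (bnd p (T q.1.1) + 1)).map fun d => (((q.1.2, q.2), (x, d)) : Fa))
      ((p_uni hb (tys p)).comp (Poly.fst (Poly.fst Poly.id))) ?_
  refine NPC.Poly.map (F := fun (q : ((α × ℕ) × ℕ) × Cx) (d : ℕ) =>
    (((q.1.1.2, q.1.2), (q.2, d)) : Fa))
      ((UPoly.add hb (UPoly.const 1)).range.comp (Poly.fst (Poly.fst (Poly.fst Poly.id)))) ?_
  exact Poly.pair (Poly.pair (Poly.snd (Poly.fst (Poly.fst (Poly.fst Poly.id))))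
    (Poly.snd (Poly.fst (Poly.fst Poly.id)))) (Poly.pair (Poly.snd (Poly.fst Poly.id))
      (Poly.snd Poly.id))

theorem p_base {T : α → Tr} (hT : Poly T) : Poly (fun a => base p (T a).length) := by
  unfold base
  have hr : Poly (fun a => List.range ((T a).length + 1)) :=
    (UPoly.add (UPoly.length hT) (UPoly.const 1)).range
  refine Poly.flatMap (F := fun (_ : α) (v : ℕ) => (List.range p).map
    fun a' => (((0, v), (one p (a', a'), 0)) : Fa)) hr ?_
  refine NPC.Poly.map (F := fun (q : α × ℕ) (a' : ℕ) => (((0, q.2), (one p (a', a'), 0)) : Fa))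
    (NPC.Poly.const (List.range p)) ?_
  exact Poly.pair (Poly.pair (NPC.Poly.const 0) (Poly.snd (Poly.fst Poly.id)))
    (Poly.pair (p_one (Poly.pair (Poly.snd Poly.id) (Poly.snd Poly.id))) (NPC.Poly.const 0))

theorem p_cand {T : α → Tr} {S : α → List Fa} (hT : Poly T) (hS : Poly S) :
    Poly (fun a => cand p (T a) (S a)) := by
  have h1 : Poly (fun a => (S a).flatMap (fun g => un p (T a) g)) :=
    Poly.flatMap (F := fun (a : α) (f : Fa) => un p (T a) f) hS
        (p_un (hT.comp (Poly.fst Poly.id)) (Poly.snd Poly.id))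
  have h2 : Poly (fun a => (S a).flatMap fun g => (S a).flatMap fun h => bi p (T a) g h) := by
    refine Poly.flatMap (F := fun (a : α) (g : Fa) => (S a).flatMap fun h => bi p (T a) g h)
        hS ?_
    exact Poly.flatMap (F := fun (q : α × Fa) (h : Fa) => bi p (T q.1) q.2 h)
        (hS.comp (Poly.fst Poly.id)) (p_bi (hT.comp (Poly.fst (Poly.fst Poly.id)))
          (Poly.snd (Poly.fst Poly.id)) (Poly.snd Poly.id))
  exact Poly.append hS (Poly.append (p_base hT) (Poly.append h1 h2))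

theorem p_rnd {T : α → Tr} {S : α → List Fa} (hT : Poly T) (hS : Poly S) :
    Poly (fun a => rnd p (T a) (S a)) :=
  Poly.filter (p := fun (a : α) (f : Fa) => decide (f ∈ cand p (T a) (S a))) (p_Un hT)
    ((Poly.decide_mem (Poly.snd Poly.id) ((p_cand hT hS).comp (Poly.fst Poly.id))).congr
      fun _ => decide_eq_decide.2 Iff.rfl)

theorem sz_filter_le {β : Type} [TEnc β] (P : β → Bool) : ∀ l : List β, sz (l.filter P) ≤ sz l
  | [] => le_rfl
  | b :: l => by
    have h := sz_filter_le P l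
    rw [List.filter_cons, sz_list_cons]
    split_ifs
    · rw [sz_list_cons]; omega
    · omega

theorem p_clo {T : α → Tr} (hT : Poly T) : Poly (fun a => clo p (T a)) := by
  unfold clo
  obtain ⟨q, hq⟩ := (p_Un (p := p) hT).sz_le
  refine Poly.foldl (F := fun (a : α) (S : List Fa) (_ : Fa) => rnd p (T a) S)
    (s := fun _ => ([] : List Fa)) (p_Un hT) (NPC.Poly.const [])
    (p_rnd (hT.comp (Poly.fst Poly.id)) (Poly.fst (Poly.snd Poly.id))) (q + 1) ?_
  intro a k _
  have h1 := hq a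
  have h2 : ∀ (l : List Fa), l.foldl (fun S _ => rnd p (T a) S) [] = Rd p (T a) l.length := by
    intro l
    unfold Rd
    rw [List.foldl_const]
  change sz (((Un p (T a)).take k).foldl (fun S _ => rnd p (T a) S) []) ≤ _
  rw [h2, Polynomial.eval_add, Polynomial.eval_one]
  rcases Nat.eq_zero_or_pos ((Un p (T a)).take k).length with h | h
  · rw [h]
    have h3 := sz_pos (Un p (T a))
    simp only [Rd, Function.iterate_zero, id_eq, sz_list_nil]
    omega
  · obtain ⟨j, hj⟩ := Nat.exists_eq_succ_of_ne_zero h.ne'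
    rw [hj, Nat.succ_eq_add_one, Rd_succ]
    have h3 : sz (rnd p (T a) (Rd p (T a) j)) ≤ sz (Un p (T a)) := by
      unfold rnd
      exact sz_filter_le _ _
    omega

theorem p_out {T : α → Tr} (hT : Poly T) : Poly (fun a => out p (T a)) := by
  have h2 : Poly (fun a : α => ((List.range (bnd p (T a) + 1)).filter fun d =>
      decide (((((T a).length, 0), (one p (0, p), d)) : Fa) ∈ clo p (T a))).head?) := by
    refine Poly.head? (Poly.filter (p := fun (a : α) (d : ℕ) =>
      decide (((((T a).length, 0), (one p (0, p), d)) : Fa) ∈ clo p (T a)))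
      (UPoly.add (u_bnd hT) (UPoly.const 1)).range ?_)
    exact (Poly.decide_mem (f := fun (q : α × ℕ) =>
      (((((T q.1).length, 0), (one p (0, p), q.2)) : Fa)))
      (Poly.pair (Poly.pair (Poly.length (hT.comp (Poly.fst Poly.id))) (NPC.Poly.const 0))
        (Poly.pair (NPC.Poly.const (one p (0, p))) (Poly.snd Poly.id)))
      ((p_clo hT).comp (Poly.fst Poly.id))).congr fun _ => decide_eq_decide.2 Iff.rfl
  refine (Poly.optCases (o := fun a => ((List.range (bnd p (T a) + 1)).filter fun d =>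
      decide (((((T a).length, 0), (one p (0, p), d)) : Fa) ∈ clo p (T a))).head?)
    (g := fun _ => 0) (h := fun _ d => d) h2 (NPC.Poly.const 0)
    (Poly.snd Poly.id)).congr fun a => ?_
  unfold out
  cases ((List.range (bnd p (T a) + 1)).filter fun d =>
      decide (((((T a).length, 0), (one p (0, p), d)) : Fa) ∈ clo p (T a))).head? <;> rfl

end Pool.Agent.H801.Pt
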