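import Mathlib

/-!
# Periodic temporal trees: walks, families of walks, contraction of leaves
-/

namespace Pool.Agent.H801.Pt

/-- A rooted tree with vertices `0, …, T.length` and presence patterns: the entry with index `i - 1`
is the parent of the vertex `i` together with the pattern of the edge between `i` and its parent. -/
abbrev Tr : Type := List (ℕ × List Bool)

/-- the parent of the vertex `i` -/
def par (T : Tr) (i : ℕ) : ℕ := (T.getD (i - 1) (0, [])).1

/-- the pattern of the edge between `i` and its parent -/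
def pat (T : Tr) (i : ℕ) : List Bool := (T.getD (i - 1) (0, [])).2

/-- is the edge between `i` and its parent present at the residue `r`? -/
def pre (T : Tr) (i r : ℕ) : Bool := (pat T i).getD r false

/-- A periodic temporal tree with period `p`: the vertices are numbered so that parents come before
their children, and each edge is present at least once in each period. -/
def Legal (p : ℕ) (T : Tr) : Prop :=
  ∀ i, 1 ≤ i → i ≤ T.length → par T i < i ∧ (pat T i).length = p ∧ ∃ r < p, pre T i r = true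

/-- One time step of the agent, from time `τ` to time `τ + 1`: waiting, or crossing an edge which
is present at time `τ`. -/
def Stp (p : ℕ) (T : Tr) (τ x y : ℕ) : Prop :=
  x = y ∨ ∃ i, 1 ≤ i ∧ i ≤ T.length ∧ pre T i (τ % p) = true ∧
    ((x = i ∧ y = par T i) ∨ (x = par T i ∧ y = i))

/-- Some movement of the agent, starting at the root at time `0`, visits all vertices by the
time `t`. -/
def Covers (p : ℕ) (T : Tr) (t : ℕ) : Prop :=
  ∃ pos : ℕ → ℕ, pos 0 = 0 ∧ (∀ τ < t, Stp p T τ (pos τ) (pos (τ + 1))) ∧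
    ∀ v ≤ T.length, ∃ τ ≤ t, pos τ = v

/-- The cover time. -/
noncomputable def coverTime (p : ℕ) (T : Tr) : ℕ := sInf {t | Covers p T t}

variable {p : ℕ} {T : Tr}

theorem Stp.cong {τ τ' x y : ℕ} (h : Stp p T τ x y) (hτ : τ % p = τ' % p) : Stp p T τ' x y := by
  unfold Stp at *
  rwa [← hτ]

/-- Walks inside `A` starting in `x` at time `a`: end vertex, duration, visited vertices. -/
inductive Wk (p : ℕ) (T : Tr) (A : ℕ → Prop) (x a : ℕ) : ℕ → ℕ → Finset ℕ → Prop
  | nil : A x → Wk p T A x a x 0 {x}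
  | snoc {y d : ℕ} {C : Finset ℕ} {z : ℕ} : Wk p T A x a y d C → Stp p T (a + d) y z → A z →
      Wk p T A x a z (d + 1) (insert z C)

theorem Wk.mem_end {A : ℕ → Prop} {x a y d : ℕ} {C : Finset ℕ} (h : Wk p T A x a y d C) :
    y ∈ C := by
  cases h <;> simp

theorem Wk.mem_start {A : ℕ → Prop} {x a y d : ℕ} {C : Finset ℕ} (h : Wk p T A x a y d C) :
    x ∈ C := by
  induction h with
  | nil => simp
  | snoc _ _ _ ih => exact Finset.mem_insert_of_mem ih

theorem Wk.inside {A : ℕ → Prop} {x a y d : ℕ} {C : Finset ℕ} (h : Wk p T A x a y d C) :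
    ∀ u ∈ C, A u := by
  induction h with
  | nil h => intro u hu; rw [Finset.mem_singleton] at hu; exact hu ▸ h
  | snoc _ _ hz ih =>
    intro u hu
    rcases Finset.mem_insert.1 hu with rfl | hu
    · exact hz
    · exact ih u hu

theorem Wk.mono {A A' : ℕ → Prop} (hA : ∀ u, A u → A' u) {x a y d : ℕ} {C : Finset ℕ}
    (h : Wk p T A x a y d C) : Wk p T A' x a y d C := by
  induction h with
  | nil h => exact Wk.nil (hA _ h)
  | snoc _ hs hz ih => exact Wk.snoc ih hs (hA _ hz)

theorem Wk.append {A : ℕ → Prop} {x a y d b z e : ℕ} {C C' : Finset ℕ}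
    (h : Wk p T A x a y d C) (h' : Wk p T A y b z e C') (hb : b % p = (a + d) % p) :
    Wk p T A x a z (d + e) (C ∪ C') := by
  induction h' with
  | nil _ =>
    rw [Finset.union_eq_left.2 (by simpa using h.mem_end)]
    exact h
  | @snoc y' e' C'' z' h1 h2 h3 ih =>
    rw [Finset.union_insert, ← add_assoc]
    refine Wk.snoc ih (h2.cong ?_) h3
    rw [Nat.add_mod, hb, ← Nat.add_mod, ← add_assoc]

theorem Wk.wait {A : ℕ → Prop} {x : ℕ} (hx : A x) (a k : ℕ) : Wk p T A x a x k {x} := by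
  induction k with
  | zero => exact Wk.nil hx
  | succ k ih =>
    have := Wk.snoc ih (Or.inl rfl : Stp p T (a + k) x x) hx
    simpa using this

/-- A fragment: a walk of the type `t = (a, b)` inside `A` starting in `v`; if `b < p` then it ends
in `v`. It visits (at least) the vertices in `C`. -/
def Frag (p : ℕ) (T : Tr) (A : ℕ → Prop) (v : ℕ) (t : ℕ × ℕ) (e : ℕ) (C : Finset ℕ) : Prop :=
  t.1 < p ∧ ∃ (y : ℕ) (C₀ : Finset ℕ), C ⊆ C₀ ∧ Wk p T A v t.1 y e C₀ ∧
    (t.2 = p ∨ (y = v ∧ t.2 = (t.1 + e) % p))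

theorem Frag.mono {A A' : ℕ → Prop} {v : ℕ} {t : ℕ × ℕ} {e : ℕ} {C C' : Finset ℕ}
    (h : Frag p T A v t e C) (hA : ∀ u, A u → A' u) (hC : C' ⊆ C) : Frag p T A' v t e C' := by
  obtain ⟨h1, y, C₀, h2, h3, h4⟩ := h
  exact ⟨h1, y, C₀, hC.trans h2, h3.mono hA, h4⟩

theorem Frag.inside {A : ℕ → Prop} {v : ℕ} {t : ℕ × ℕ} {e : ℕ} {C : Finset ℕ}
    (h : Frag p T A v t e C) : ∀ u ∈ C, A u := by
  obtain ⟨h1, y, C₀, h2, h3, h4⟩ := h
  exact fun u hu => h3.inside u (h2 hu)

theorem Frag.snd_le (hp : 0 < p) {A : ℕ → Prop} {v : ℕ} {t : ℕ × ℕ} {e : ℕ} {C : Finset ℕ}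
    (h : Frag p T A v t e C) : t.2 ≤ p := by
  obtain ⟨h1, y, C₀, h2, h3, h4 | ⟨_, h4⟩⟩ := h
  · exact h4.le
  · rw [h4]; exact (Nat.mod_lt _ hp).le

theorem Frag.merge {A : ℕ → Prop} {v a b c e e' : ℕ} {C C' : Finset ℕ}
    (h : Frag p T A v (a, b) e C) (h' : Frag p T A v (b, c) e' C') :
    Frag p T A v (a, c) (e + e') (C ∪ C') := by
  obtain ⟨h1, y, C₀, h2, h3, h4⟩ := h
  obtain ⟨g1, y', C₀', g2, g3, g4⟩ := h'
  simp only at h1 h3 h4 g1 g3 g4
  rcases h4 with h4 | ⟨rfl, h4⟩
  · omega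
  refine ⟨h1, y', C₀ ∪ C₀', Finset.union_subset_union h2 g2, h3.append g3 ?_, ?_⟩
  · rw [h4, Nat.mod_mod]
  · simp only
    rcases g4 with g4 | ⟨g4, g5⟩
    · exact Or.inl g4
    · refine Or.inr ⟨g4, ?_⟩
      rw [g5, h4, ← add_assoc, Nat.add_mod, Nat.mod_mod, ← Nat.add_mod]

/-- Families of fragments: types, total duration, visited vertices. -/
inductive Fam (p : ℕ) (T : Tr) (A : ℕ → Prop) (v : ℕ) :
    Multiset (ℕ × ℕ) → ℕ → Finset ℕ → Prop
  | nil : Fam p T A v 0 0 ∅
  | cons {t : ℕ × ℕ} {e : ℕ} {C : Finset ℕ} {X : Multiset (ℕ × ℕ)} {d : ℕ} {C' : Finset ℕ} :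
      Frag p T A v t e C → Fam p T A v X d C' → Fam p T A v (t ::ₘ X) (e + d) (C ∪ C')

theorem Fam.inside {A : ℕ → Prop} {v : ℕ} {X : Multiset (ℕ × ℕ)} {d : ℕ} {C : Finset ℕ}
    (h : Fam p T A v X d C) : ∀ u ∈ C, A u := by
  induction h with
  | nil => simp
  | cons h1 _ ih =>
    intro u hu
    rcases Finset.mem_union.1 hu with hu | hu
    · exact h1.inside u hu
    · exact ih u hu

theorem Fam.types (hp : 0 < p) {A : ℕ → Prop} {v : ℕ} {X : Multiset (ℕ × ℕ)} {d : ℕ}
    {C : Finset ℕ} (h : Fam p T A v X d C) : ∀ t ∈ X, t.1 < p ∧ t.2 ≤ p := by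
  induction h with
  | nil => simp
  | cons h1 _ ih =>
    intro u hu
    rcases Multiset.mem_cons.1 hu with rfl | hu
    · exact ⟨h1.1, h1.snd_le hp⟩
    · exact ih u hu

theorem Fam.mono {A A' : ℕ → Prop} {v : ℕ} (hA : ∀ u, A u → A' u) {X : Multiset (ℕ × ℕ)} {d : ℕ}
    {C : Finset ℕ} (h : Fam p T A v X d C) : Fam p T A' v X d C := by
  induction h with
  | nil => exact Fam.nil
  | cons h1 _ ih => exact Fam.cons (h1.mono hA (subset_refl _)) ih

theorem Fam.single {A : ℕ → Prop} {v : ℕ} {t : ℕ × ℕ} {e : ℕ} {C : Finset ℕ}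
    (h : Frag p T A v t e C) : Fam p T A v {t} e C := by
  have := Fam.cons h Fam.nil
  simpa using this

theorem Fam.add {A : ℕ → Prop} {v : ℕ} {X Y : Multiset (ℕ × ℕ)} {d e : ℕ}
    {C C' : Finset ℕ} (h : Fam p T A v X d C) (h' : Fam p T A v Y e C') :
    Fam p T A v (X + Y) (d + e) (C ∪ C') := by
  induction h with
  | nil => simpa using h'
  | cons h1 _ ih =>
    rw [Multiset.cons_add, add_assoc, Finset.union_assoc]
    exact Fam.cons h1 ih

theorem Fam.inv {A : ℕ → Prop} {v : ℕ} {t : ℕ × ℕ} {Y : Multiset (ℕ × ℕ)} {d : ℕ}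
    {C : Finset ℕ} (h : Fam p T A v Y d C) : ∀ X, Y = t ::ₘ X →
    ∃ (e : ℕ) (C₁ : Finset ℕ) (d' : ℕ) (C₂ : Finset ℕ), Frag p T A v t e C₁ ∧
      Fam p T A v X d' C₂ ∧ d = e + d' ∧ C = C₁ ∪ C₂ := by
  induction h with
  | nil => intro X hX; exact absurd hX.symm (Multiset.cons_ne_zero)
  | @cons t' e' C' X' d' C'' h1 h2 ih =>
    intro X hX
    rcases Multiset.cons_eq_cons.1 hX with ⟨rfl, rfl⟩ | ⟨hne, Z, hZ, hZ'⟩
    · exact ⟨e', C', d', C'', h1, h2, rfl, rfl⟩
    · obtain ⟨e, C₁, d₂, C₂, g1, g2, rfl, rfl⟩ := ih Z hZ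
      refine ⟨e, C₁, e' + d₂, C' ∪ C₂, g1, ?_, by ring, ?_⟩
      · rw [hZ']
        exact Fam.cons h1 g2
      · ext u; simp only [Finset.mem_union]; tauto

theorem Fam.zero {A : ℕ → Prop} {v : ℕ} {Y : Multiset (ℕ × ℕ)} {d : ℕ}
    {C : Finset ℕ} (h : Fam p T A v Y d C) (hY : Y = 0) : d = 0 ∧ C = ∅ := by
  cases h with
  | nil => exact ⟨rfl, rfl⟩
  | cons _ _ => exact absurd hY (Multiset.cons_ne_zero)

/-! ### Contraction of the last vertices -/

/-- The vertex into which `y` is contracted when the last `k` vertices are contracted into their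
parents, one after the other. -/
def rep (T : Tr) : ℕ → ℕ → ℕ
  | 0, y => y
  | k + 1, y => if rep T k y = T.length - k then par T (T.length - k) else rep T k y

/-- the vertices contracted into `v` -/
def Reg (T : Tr) (k v y : ℕ) : Prop := y ≤ T.length ∧ rep T k y = v

theorem rep_of_le {k y : ℕ} (hk : k ≤ T.length) (hy : y ≤ T.length - k) : rep T k y = y := by
  induction k with
  | zero => rfl
  | succ k ih =>
    have h1 : rep T k y = y := ih (by omega) (by omega)
    unfold rep
    rw [h1, if_neg (by omega)]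

theorem rep_le (hT : Legal p T) {k y : ℕ} (hk : k ≤ T.length) (hy : y ≤ T.length) :
    rep T k y ≤ T.length - k := by
  induction k with
  | zero => exact hy
  | succ k ih =>
    have h1 := ih (by omega)
    have h2 := (hT (T.length - k) (by omega) (by omega)).1
    unfold rep
    split_ifs <;> omega

theorem rep_edge (hT : Legal p T) {k i : ℕ} (hk : k ≤ T.length) (hi : i ≤ T.length)
    (hik : T.length - k < i) : rep T k i = rep T k (par T i) := by
  induction k with
  | zero => omega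
  | succ k ih =>
    have h2 := (hT i (by omega) hi).1
    rcases Nat.lt_or_ge (T.length - k) i with h | h
    · unfold rep
      rw [ih (by omega) h]
    · have h3 : i = T.length - k := by omega
      have h4 : rep T k i = i := rep_of_le (by omega) h
      have h5 : rep T k (par T i) = par T i := rep_of_le (by omega) (by omega)
      unfold rep
      rw [h4, h5, if_pos h3, if_neg (by omega), ← h3]

theorem reg_succ_of_ne {k v : ℕ} (hv : v ≠ par T (T.length - k)) (hv2 : v ≠ T.length - k) (y : ℕ) :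
    Reg T (k + 1) v y ↔ Reg T k v y := by
  unfold Reg
  rw [show rep T (k + 1) y = if rep T k y = T.length - k then par T (T.length - k) else rep T k y
    from rfl]
  split_ifs with h
  · constructor
    · rintro ⟨_, h2⟩; exact absurd h2.symm hv
    · rintro ⟨_, h2⟩; exact absurd (h2.symm.trans h) hv2
  · rfl

theorem reg_succ_par {k : ℕ} (hv2 : par T (T.length - k) ≠ T.length - k) (y : ℕ) :
    Reg T (k + 1) (par T (T.length - k)) y ↔
      Reg T k (par T (T.length - k)) y ∨ Reg T k (T.length - k) y := by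
  unfold Reg
  rw [show rep T (k + 1) y = if rep T k y = T.length - k then par T (T.length - k) else rep T k y
    from rfl]
  split_ifs with h
  · constructor
    · rintro ⟨h1, _⟩; exact Or.inr ⟨h1, h⟩
    · rintro (⟨h1, _⟩ | ⟨h1, _⟩) <;> exact ⟨h1, rfl⟩
  · constructor
    · rintro h1; exact Or.inl h1
    · rintro (h1 | ⟨_, h1⟩)
      · exact h1
      · exact absurd h1 h

/-- Crossing from one region to the region of the last vertex. -/
theorem cross (hT : Legal p T) {k v y z τ : ℕ} (hk : k < T.length) (hv : v ≠ T.length - k)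
    (hy : Reg T k v y) (hz : Reg T k (T.length - k) z) (h : Stp p T τ y z ∨ Stp p T τ z y) :
    y = v ∧ z = T.length - k ∧ v = par T (T.length - k) ∧ pre T (T.length - k) (τ % p) = true := by
  have key : ∃ i, 1 ≤ i ∧ i ≤ T.length ∧ pre T i (τ % p) = true ∧
      ((y = i ∧ z = par T i) ∨ (y = par T i ∧ z = i)) := by
    rcases h with (h | ⟨i, h1, h2, h3, h4⟩) | (h | ⟨i, h1, h2, h3, h4⟩)
    · subst h; exact absurd (hy.2.symm.trans hz.2) hv
    · exact ⟨i, h1, h2, h3, h4⟩
    · subst h; exact absurd (hy.2.symm.trans hz.2) hv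
    · exact ⟨i, h1, h2, h3, by tauto⟩
  obtain ⟨i, h1, h2, h3, h4⟩ := key
  have h5 := (hT i h1 h2).1
  have h6 : i ≤ T.length - k := by
    by_contra h6
    have h7 := rep_edge hT (le_of_lt hk) h2 (by omega)
    rcases h4 with ⟨rfl, rfl⟩ | ⟨rfl, rfl⟩
    · exact hv (hy.2.symm.trans (h7.trans hz.2))
    · exact hv (hy.2.symm.trans (h7.symm.trans hz.2))
  have h8 : rep T k i = i := rep_of_le (le_of_lt hk) h6
  have h9 : rep T k (par T i) = par T i := rep_of_le (le_of_lt hk) (by omega)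
  rcases h4 with ⟨rfl, rfl⟩ | ⟨rfl, rfl⟩
  · have e1 : y = v := h8.symm.trans hy.2
    have e2 : par T y = T.length - k := h9.symm.trans hz.2
    omega
  · have e1 : par T z = v := h9.symm.trans hy.2
    have e2 : z = T.length - k := h8.symm.trans hz.2
    subst e2
    exact ⟨e1, rfl, e1.symm, h3⟩

end Pool.Agent.H801.Pt
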